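import Pool.Agent.helper54.V3.SpecE

/-!
# Project v3: (MP_af9036_an), part T: tools (distortion from Landau's theorem, ultrafilter limits, normality of `B`)

Paper: /team-store/MP_af9036_V3_notes.md (helper10), sections 2, 3.4, 3.5, quoted as [paper, (x.y)]. Only Mathlib is needed, and
`Pool.Agent.helper54.CR.landau`, `Pool.Agent.helper98.ILF.exists_lift_pow` (import them in the KO modules).
File `Pool/Agent/<seat>/V3/XX.lean`: `import Pool.Agent.helper54.V3.SpecT`, `set_option autoImplicit false`, `namespace V3`,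
`open Complex Metric Set Filter Topology MeasureTheory`, `theorem XX (h : YY_stmt) ... : XX_stmt`.
Any other statement of SpecE, SpecT may be a hypothesis (no circles). Auxiliary lemmas are prefixed `XX_`.
-/

set_option autoImplicit false

open Complex Metric Set Filter Topology MeasureTheory

noncomputable section

namespace V3

/-! ## Distortion of injective functions, constants irrelevant [paper, section 2] -/

/-- KO1: a quarter type theorem.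
PROOF. Scale: `F u = (G (a + r u) - G a)/(r G' a)` is injective on the unit disc, `F 0 = 0`, `F' 0 = 1` (`G' a ≠ 0` by injectivity, e.g. `AnalyticAt`/`deriv_ne_zero_of_injOn`-type fact; if not
in Mathlib: a zero of `G - G a` of order `≥ 2` contradicts injectivity, `AnalyticAt.eventually_constant_or_nhds_le_map_nhds`, or the local form `(z-a)^m h`, `m`-th root; it is also enough to treat `G' a = 0` trivially: the claim is then
about an empty ball). If `w₀ ≠ 0` is omitted, `1 - F/w₀` has no zero; `s` its square root with `s 0 = 1` (`exists_lift_pow`). `s` omits `0` and `-1` (`s u = -1` gives `F u = 0`, `u = 0`, `s = 1`).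
`landau` for `-s` at `0`: `‖s' 0/s 0‖ ≤ 4000`, `s' 0 = -1/(2 w₀)`: `‖w₀‖ ≥ 1/8000`. -/
def KO1_stmt : Prop := ∃ C : ℝ, 1 ≤ C ∧ ∀ (G : ℂ → ℂ) (a : ℂ) (r : ℝ), 0 < r → DifferentiableOn ℂ G (ball a r) →
  InjOn G (ball a r) → ball (G a) (r * ‖deriv G a‖ / C) ⊆ G '' ball a r

/-- KO0: the derivative of an injective holomorphic function does not vanish.
PROOF. Otherwise `G z - G a = (z-a)^m h(z)`, `m ≥ 2`, `h a ≠ 0` near `a` (or `G` is constant near `a`); with a local `m`-th root `κ` of `h`, `u = (z - a) κ(z)` is a local coordinate and `G = G a + u^m` takes the value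
`G a + ε^m` at the `m` different points `u = ε ω^j`. -/
def KO0_stmt : Prop := ∀ (G : ℂ → ℂ) (Ω : Set ℂ), IsOpen Ω → DifferentiableOn ℂ G Ω → InjOn G Ω →
  ∀ a ∈ Ω, deriv G a ≠ 0

/-- KO2: growth of a normalised injective function.
PROOF. `F` as in KO1 (`a = 0`, `r = 1`). Some `w₀` with `‖w₀‖ ≤ 2` is omitted by `F`: otherwise `F⁻¹` is defined on `ball 0 2`, holomorphic with values in the unit disc and derivative `1` at `0`: contradiction to Schwarz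
(`Complex.norm_deriv_le_div_of_mapsTo_ball`); `w₀ ≠ 0`. `s` as in KO1. At every `u` of the unit disc Landau on `ball u (1 - ‖u‖)`: `‖s'/s‖ ≤ 4000/(1-‖u‖) (1 + |log ‖s u‖|)`. Gronwall along the radius: `|log ‖s u‖| ≤ (1-‖u‖)^(-4001)` (as in NG of mp:,
Pool/Agent files of module NG). So `‖F u‖ ≤ ‖w₀‖ (1 + ‖s‖²) ≤ 4 exp (2 (1-‖u‖)^(-4001))`. -/
def KO2_stmt : Prop := ∀ η : ℝ, 0 < η → η < 1 → ∃ C : ℝ, 1 ≤ C ∧ ∀ (F : ℂ → ℂ), DifferentiableOn ℂ F (ball 0 1) →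
  InjOn F (ball 0 1) → F 0 = 0 → deriv F 0 = 1 → ∀ u ∈ closedBall (0 : ℂ) (1 - η), ‖F u‖ ≤ C

/-- KO3: distortion on compact subdiscs.
PROOF. KO2 and Cauchy's estimates: `‖F'' u‖`, `‖F' u‖ ≤ C` for `|u| ≤ 1 - η`; lower bound of `‖F' u‖`: apply the upper bound to the normalised function with centre `u` and radius `1 - ‖u‖ ≥ η`, but evaluated at ... : simpler, KO2 gives
`‖G''(a)‖ ≤ C₂ ‖G'(a)‖/r` for all injective `G` on `ball a r` (Cauchy on `|u| = 1/2`); apply it at every point `x` of `ball a ((1-η) r)` with radius `η r`: `‖G''/G'‖ ≤ C₂/(η r)` (KO0); integrate along the segment: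
`|log (‖G' x‖/‖G' a‖)| ≤ C₂/η`, and `‖G' x - G' a‖ ≤ ∫ ‖G''‖ ≤ C (‖x - a‖/r) ‖G' a‖`, `‖G x - G a‖ ≤ C ‖x-a‖ ‖G' a‖`. -/
def KO3_stmt : Prop := ∀ η : ℝ, 0 < η → η < 1 → ∃ C : ℝ, 1 ≤ C ∧ ∀ (G : ℂ → ℂ) (a : ℂ) (r : ℝ), 0 < r →
  DifferentiableOn ℂ G (ball a r) → InjOn G (ball a r) →
  ‖iteratedDeriv 2 G a‖ ≤ C * ‖deriv G a‖ / r ∧
  ∀ x ∈ ball a ((1 - η) * r), ‖deriv G x‖ ≤ C * ‖deriv G a‖ ∧ ‖deriv G a‖ ≤ C * ‖deriv G x‖ ∧
    ‖G x - G a‖ ≤ C * ‖x - a‖ * ‖deriv G a‖ ∧ ‖deriv G x - deriv G a‖ ≤ C * (‖x - a‖ / r) * ‖deriv G a‖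

/-! ## Limits along an ultrafilter -/

/-- `f m` is holomorphic near `x` (in a fixed ball) for `U`-almost all `m`. -/
def EvHol (U : Ultrafilter ℕ) (f : ℕ → ℂ → ℂ) (x : ℂ) : Prop :=
  ∃ r > (0 : ℝ), ∀ᶠ m in (U : Filter ℕ), DifferentiableOn ℂ (f m) (ball x r)

/-- TUL: bounded sequences have ultralimits.
PROOF. `Ultrafilter` on a compact ball (`IsCompact.ultrafilter_le_nhds` for `U.map a`). -/
def TUL_stmt : Prop := ∀ (U : Ultrafilter ℕ) (a : ℕ → ℂ) (C : ℝ), (∀ᶠ m in (U : Filter ℕ), ‖a m‖ ≤ C) →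
  ∃ z : ℂ, ‖z‖ ≤ C ∧ Tendsto a U (𝓝 z)

/-- TMO: Montel along an ultrafilter.
PROOF. `F x := lim_U f m x` (TUL). On a ball `ball x r` where eventually `‖f m‖ ≤ C`: Cauchy's estimate makes `f m` Lipschitz with constant `4C/r` on `ball x (r/2)`, so `F` is Lipschitz there and the convergence is uniform on
`ball x (r/2)` (cover by finitely many balls of radius `ε r/(16 C)`). A locally uniform limit is holomorphic (`TendstoLocallyUniformlyOn.differentiableOn` on `ball x (r/2)`, for which `∀ᶠ m, DifferentiableOn`). -/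
def TMO_stmt : Prop := ∀ (U : Ultrafilter ℕ) (f : ℕ → ℂ → ℂ) (Ω : Set ℂ), IsOpen Ω →
  (∀ x ∈ Ω, ∃ r > (0 : ℝ), ∃ C : ℝ, ∀ᶠ m in (U : Filter ℕ), DifferentiableOn ℂ (f m) (ball x r) ∧
    ∀ y ∈ ball x r, ‖f m y‖ ≤ C) →
  ∃ F : ℂ → ℂ, DifferentiableOn ℂ F Ω ∧ TendstoLocallyUniformlyOn f F U Ω

/-- TDE: locally uniform limits of (locally eventually) holomorphic functions: the limit is holomorphic and the derivatives converge.
PROOF. Local statement; on a small ball contained in `Ω` and in the ball of `EvHol`: `TendstoLocallyUniformlyOn.differentiableOn`, `.deriv`. -/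
def TDE_stmt : Prop := ∀ (U : Ultrafilter ℕ) (f : ℕ → ℂ → ℂ) (F : ℂ → ℂ) (Ω : Set ℂ), IsOpen Ω →
  (∀ x ∈ Ω, EvHol U f x) → TendstoLocallyUniformlyOn f F U Ω →
  DifferentiableOn ℂ F Ω ∧ TendstoLocallyUniformlyOn (fun m => deriv (f m)) (deriv F) U Ω ∧
  TendstoLocallyUniformlyOn (fun m => iteratedDeriv 2 (f m)) (iteratedDeriv 2 F) U Ω

/-- THU: Hurwitz, existence of zeros.
PROOF. If along `U` (so for `U`-almost all `m`) there is no zero in `ball z₀ ε`: choose `0 < δ < ε` with `F ≠ 0` on the circle `|x - z₀| = δ` (isolated zeros), `‖F‖ ≥ c` there; `1/f m` is holomorphic on the disc and `≤ 2/c` on the circle, so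
`‖1/f m z₀‖ ≤ 2/c` by the maximum principle, but `f m z₀ → 0`. -/
def THU_stmt : Prop := ∀ (U : Ultrafilter ℕ) (f : ℕ → ℂ → ℂ) (F : ℂ → ℂ) (z₀ : ℂ) (r : ℝ), 0 < r →
  (∀ᶠ m in (U : Filter ℕ), DifferentiableOn ℂ (f m) (ball z₀ r)) → TendstoLocallyUniformlyOn f F U (ball z₀ r) →
  F z₀ = 0 → (∃ x ∈ ball z₀ r, F x ≠ 0) → ∀ ε > (0 : ℝ), ∀ᶠ m in (U : Filter ℕ), ∃ z ∈ ball z₀ ε, f m z = 0

/-- THM: Hurwitz with multiplicity.
PROOF. Induction on `N`, in the stronger form: there are `ζ m : Fin N → ball z₀ ε` and `f m = ∏_i (x - ζ m i) · h m` with `h m` holomorphic on `ball z₀ r`, `h m → H`, `F = (x - z₀)^N H` (locally uniformly). Step: `H z₀ = 0` if `F` vanishes to order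
`≥ N + 1`; THU gives a zero `z m` of `h m` with `z m → z₀` (for every `ε`; choose `z m` nearest to `z₀`, or take `z m` with `‖z m - z₀‖ ≤ 2 inf`); `h m/(x - z m)` (removable: `dslope (h m) (z m)`) converges to `H/(x - z₀)` uniformly on circles around `z₀`, hence
inside (maximum principle for the difference). Then `S` = the set of the `ζ m i`, `μ` = multiplicities. -/
def THM_stmt : Prop := ∀ (U : Ultrafilter ℕ) (f : ℕ → ℂ → ℂ) (F : ℂ → ℂ) (z₀ : ℂ) (r ε : ℝ) (N : ℕ), 0 < r → 0 < ε → ε ≤ r →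
  (∀ᶠ m in (U : Filter ℕ), DifferentiableOn ℂ (f m) (ball z₀ r)) → TendstoLocallyUniformlyOn f F U (ball z₀ r) →
  (∃ x ∈ ball z₀ r, F x ≠ 0) → OrdGe F z₀ N →
  ∀ᶠ m in (U : Filter ℕ), ∃ (S : Finset ℂ) (μ : ℂ → ℕ), (∀ z ∈ S, z ∈ ball z₀ ε ∧ OrdGe (f m) z (μ z)) ∧
    ∑ z ∈ S, μ z = N

/-- TMX: maximum principle for limits: convergence on a circle implies convergence inside.
PROOF. `f m - f m'`-free version: `F` is holomorphic on the big ball, `f m - F` is holomorphic on the ball of radius `r' > r` and uniformly small on the sphere: `Complex.norm_le_of_forall_mem_frontier_norm_le`. -/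
def TMX_stmt : Prop := ∀ (U : Ultrafilter ℕ) (f : ℕ → ℂ → ℂ) (F : ℂ → ℂ) (a : ℂ) (r r' : ℝ), 0 < r → r < r' →
  (∀ᶠ m in (U : Filter ℕ), DifferentiableOn ℂ (f m) (ball a r')) → DifferentiableOn ℂ F (ball a r') →
  TendstoUniformlyOn f F U (sphere a r) → TendstoUniformlyOn f F U (closedBall a r)

/-- TBX: boundedness on a circle implies boundedness inside (for every `m` separately), and local bounds on a compact set are uniform.
PROOF. Maximum principle; compactness (finite subcover, intersection of finitely many `∀ᶠ`). -/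
def TBX_stmt : Prop := (∀ (f : ℂ → ℂ) (a : ℂ) (r r' C : ℝ), 0 < r → r < r' → DifferentiableOn ℂ f (ball a r') →
    (∀ x ∈ sphere a r, ‖f x‖ ≤ C) → ∀ x ∈ closedBall a r, ‖f x‖ ≤ C) ∧
  (∀ (U : Ultrafilter ℕ) (f : ℕ → ℂ → ℂ) (K : Set ℂ), IsCompact K →
    (∀ x ∈ K, ∃ r > (0 : ℝ), ∃ C : ℝ, ∀ᶠ m in (U : Filter ℕ), ∀ y ∈ ball x r, ‖f m y‖ ≤ C) →
    ∃ C : ℝ, ∀ᶠ m in (U : Filter ℕ), ∀ y ∈ K, ‖f m y‖ ≤ C)

/-! ## Separated poles: sums [paper, (3.4)] -/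

section
variable {ι : Type} [Fintype ι]

/-- the differential `B` in the `x`-plane. -/
def BF (p g : ι → ℂ) (x : ℂ) : ℂ := ∑ i, (1 / (x - p i) ^ 2 + g i / (x - p i))

/-- the far part: the poles with `|p i| ≥ R`. -/
def far (p g : ι → ℂ) (R : ℝ) (x : ℂ) : ℂ :=
  ∑ i, if R ≤ ‖p i‖ then (1 / (x - p i) ^ 2 + g i / (x - p i)) else 0

end

/-- NPK: packing.
PROOF. The discs `ball (p i) (c/2)`, `i ∈ S`, are disjoint and contained in `ball 0 (R + c/2)`: compare volumes. -/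
def NPK_stmt : Prop := ∀ (ι : Type) (p : ι → ℂ) (S : Finset ι) (c R : ℝ), 0 < c → 0 < R →
  (∀ i ∈ S, ∀ l ∈ S, i ≠ l → c ≤ ‖p i - p l‖) → (∀ i ∈ S, ‖p i‖ < R) → (S.card : ℝ) ≤ (1 + 2 * R / c) ^ 2

/-- NSU: sums over separated points.
PROOF. Dyadic annuli `2^j R ≤ |p i| < 2^(j+1) R`: at most `(1 + 2^(j+2) R/c)² ≤ (5 · 2^j R/c)²` points (NPK, `c ≤ R`), each term `≤ (2^j R)^(-3)`: sum `≤ ∑_j 25/(c² 2^j R) = 50/(c² R)`. (Finite sum: let `J` be such that all `|p i| < 2^J R`.) -/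
def NSU_stmt : Prop := ∀ (ι : Type) (p : ι → ℂ) (S : Finset ι) (c R : ℝ), 0 < c → c ≤ R →
  (∀ i ∈ S, ∀ l ∈ S, i ≠ l → c ≤ ‖p i - p l‖) → (∀ i ∈ S, R ≤ ‖p i‖) →
  ∑ i ∈ S, 1 / ‖p i‖ ^ 3 ≤ 50 / (c ^ 2 * R)

/-- NFA: the far part is almost affine [paper, (3.4)].
PROOF. `f = far p g (2ρ)`, holomorphic on `ball 0 (2ρ)`, `f'' = ∑_{far} 6/(x-p)^4 + 2g/(x-p)^3`; for `|x| ≤ ρ`: `|x - p| ≥ |p|/2`, so `‖f''‖ ≤ ∑ (96/|p|^4 + 16 C/|p|^3) ≤ (96 + 16 C) ∑ 1/|p|^3` (`|p| ≥ 2ρ ≥ 1`), NSU. Taylor along the segment from `0`. -/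
def NFA_stmt : Prop := ∀ c C : ℝ, 0 < c → 0 ≤ C → ∃ K : ℝ, 0 ≤ K ∧ ∀ (ι : Type) [Fintype ι] (p g : ι → ℂ) (ρ : ℝ),
  1 ≤ ρ → c ≤ ρ → (∀ i l, i ≠ l → c ≤ ‖p i - p l‖) → (∀ i, ‖g i‖ ≤ C) →
  DifferentiableOn ℂ (far p g (2 * ρ)) (ball 0 (2 * ρ)) ∧
  (∀ x ∈ closedBall (0 : ℂ) ρ, ‖iteratedDeriv 2 (far p g (2 * ρ)) x‖ ≤ K / ρ) ∧
  ∃ a b : ℂ, ∀ x ∈ closedBall (0 : ℂ) ρ, ‖far p g (2 * ρ) x - a - b * x‖ ≤ K * ‖x‖ ^ 2 / ρ

/-- NBD: the far part is bounded on compact sets [paper, (3.4)].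
PROOF. At `x₁, x₂` (contained in `closedBall 0 ρ`): `far = BF - near`, `‖near‖ ≤ N (1/c² + C/c)` with `N ≤ (1 + 4ρ/c)²` (NPK). So the affine function `a + b x` of NFA is bounded at two points of distance `≥ c`, hence `a, b` are bounded by a constant
depending on `c, C, ρ`, hence `far` is bounded on `closedBall 0 ρ`. -/
def NBD_stmt : Prop := ∀ c C ρ : ℝ, 0 < c → 0 ≤ C → 1 ≤ ρ → c ≤ ρ → C ≤ ρ → ∃ K : ℝ, ∀ (ι : Type) [Fintype ι] (p g : ι → ℂ)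
  (x₁ x₂ : ℂ), (∀ i l, i ≠ l → c ≤ ‖p i - p l‖) → (∀ i, ‖g i‖ ≤ C) → ‖x₁‖ ≤ C → ‖x₂‖ ≤ C → c ≤ ‖x₁ - x₂‖ →
  (∀ i, c ≤ ‖x₁ - p i‖ ∧ c ≤ ‖x₂ - p i‖) → ‖BF p g x₁‖ ≤ C → ‖BF p g x₂‖ ≤ C →
  ∀ x ∈ closedBall (0 : ℂ) ρ, ‖far p g (2 * ρ) x‖ ≤ K

/-! ## The limit of `B` [paper, (3.5)] -/

/-- assumptions: a sequence of configurations of separated poles, with `B` bounded at two points. -/
structure Conf (U : Ultrafilter ℕ) (ι : ℕ → Type) [∀ m, Fintype (ι m)] [∀ m, Nonempty (ι m)]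
    (p g : ∀ m, ι m → ℂ) (c C : ℝ) (x₁ x₂ : ℕ → ℂ) : Prop where
  c0 : 0 < c
  C0 : 0 ≤ C
  sep : ∀ᶠ m in (U : Filter ℕ), ∀ i l, i ≠ l → c ≤ ‖p m i - p m l‖
  hg : ∀ᶠ m in (U : Filter ℕ), ∀ i, ‖g m i‖ ≤ C
  hx : ∀ᶠ m in (U : Filter ℕ), ‖x₁ m‖ ≤ C ∧ ‖x₂ m‖ ≤ C ∧ c ≤ ‖x₁ m - x₂ m‖ ∧
    (∀ i, c ≤ ‖x₁ m - p m i‖ ∧ c ≤ ‖x₂ m - p m i‖) ∧ ‖BF (p m) (g m) (x₁ m)‖ ≤ C ∧ ‖BF (p m) (g m) (x₂ m)‖ ≤ C

/-- the limit set of the poles. -/
def LP (U : Ultrafilter ℕ) (ι : ℕ → Type) (p : ∀ m, ι m → ℂ) : Set ℂ :=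
  {q | ∃ i : ∀ m, ι m, Tendsto (fun m => p m (i m)) U (𝓝 q)}

/-- NLP: the limit set: separation, uniqueness of labels, emptiness near other points, labels in balls.
PROOF. (1) If `q ≠ q'` the labels differ eventually (else equal eventually, ultrafilter), so `c ≤ ‖p - p'‖` passes to the limit. (2) if the distance of the two sequences tends to `0` it is `< c` eventually. (3) Let `i m` be a label nearest to `x` (finite nonempty
set); if for every `δ` not (eventually no pole in `ball x δ`), then eventually there is one (ultrafilter), so `p m (i m) → x`. (4) For `q ∈ P ∩ ball 0 R` (finite) fix labels `i_q`. If the claim fails then for `U`-almost all `m` there is a label `j m` with `‖p m (j m)‖ < R` which is no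
`i_q m` (the converse inclusion holds eventually because `‖q‖ < R`); its ultralimit `q'` (TUL) is in `P`, `‖q'‖ ≤ R`, not on the sphere, so `j m = i_{q'} m` eventually by (2): contradiction. -/
def NLP_stmt : Prop := ∀ (U : Ultrafilter ℕ) (ι : ℕ → Type) [∀ m, Fintype (ι m)] [∀ m, Nonempty (ι m)]
  (p : ∀ m, ι m → ℂ) (c : ℝ), 0 < c → (∀ᶠ m in (U : Filter ℕ), ∀ i l, i ≠ l → c ≤ ‖p m i - p m l‖) →
  (∀ q ∈ LP U ι p, ∀ q' ∈ LP U ι p, q ≠ q' → c ≤ ‖q - q'‖) ∧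
  (∀ (i i' : ∀ m, ι m) (q : ℂ), Tendsto (fun m => p m (i m)) U (𝓝 q) → Tendsto (fun m => p m (i' m)) U (𝓝 q) →
    ∀ᶠ m in (U : Filter ℕ), i m = i' m) ∧
  (∀ x ∉ LP U ι p, ∃ δ > (0 : ℝ), ∀ᶠ m in (U : Filter ℕ), ∀ i, δ ≤ ‖p m i - x‖) ∧
  (∀ R : ℝ, (∀ q ∈ LP U ι p, ‖q‖ ≠ R) → ∃ lab : ℂ → ∀ m, ι m,
    (∀ q ∈ LP U ι p, Tendsto (fun m => p m (lab q m)) U (𝓝 q)) ∧
    ∀ᶠ m in (U : Filter ℕ), ∀ j, ‖p m j‖ < R ↔ ∃ q ∈ LP U ι p, ‖q‖ < R ∧ j = lab q m)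

/-- NMO: the limit of `B` exists off `P`.
PROOF. Near `x ∉ P`: by NLP no pole in `ball x δ` eventually; with `ρ ≥ ‖x‖ + 1` large: near part: at most `(1+4ρ/c)²` terms, each `≤ 4/δ² + 2C/δ` on `ball x (δ/2)`; far part bounded by NBD. TMO on `Pᶜ` (open: PCO). -/
def NMO_stmt : Prop := ∀ (U : Ultrafilter ℕ) (ι : ℕ → Type) [∀ m, Fintype (ι m)] [∀ m, Nonempty (ι m)]
  (p g : ∀ m, ι m → ℂ) (c C : ℝ) (x₁ x₂ : ℕ → ℂ), Conf U ι p g c C x₁ x₂ →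
  (∀ x ∉ LP U ι p, EvHol U (fun m => BF (p m) (g m)) x) ∧
  ∃ B : ℂ → ℂ, DifferentiableOn ℂ B (LP U ι p)ᶜ ∧
    TendstoLocallyUniformlyOn (fun m => BF (p m) (g m)) B U (LP U ι p)ᶜ

/-- NBP: the principal parts.
PROOF. Let `i m` be labels of `q ∈ P`. `R m x = BF x - 1/(x - p m (i m))² - g m (i m)/(x - p m (i m))` is holomorphic on `ball q (c/2)` eventually (all other poles have distance `≥ c` from `p m (i m)`), and bounded there (near terms as in NMO, all other poles are at distance `≥ c/4`, far part by NBD):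
TMO gives a holomorphic limit `h` on `ball q (c/4)`; `g m (i m) → gg q` (TUL; independent of the labels by NLP). In the punctured disc `B x = 1/(x-q)² + gg q/(x-q) + h x`. -/
def NBP_stmt : Prop := ∀ (U : Ultrafilter ℕ) (ι : ℕ → Type) [∀ m, Fintype (ι m)] [∀ m, Nonempty (ι m)]
  (p g : ∀ m, ι m → ℂ) (c C : ℝ) (x₁ x₂ : ℕ → ℂ) (B : ℂ → ℂ), Conf U ι p g c C x₁ x₂ →
  TendstoLocallyUniformlyOn (fun m => BF (p m) (g m)) B U (LP U ι p)ᶜ →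
  ∃ gg : ℂ → ℂ, (∀ q ∈ LP U ι p, ‖gg q‖ ≤ C) ∧
    (∀ (i : ∀ m, ι m) (q : ℂ), Tendsto (fun m => p m (i m)) U (𝓝 q) →
      Tendsto (fun m => g m (i m)) U (𝓝 (gg q))) ∧
    ∀ q ∈ LP U ι p, ∃ h : ℂ → ℂ, AnalyticAt ℂ h q ∧
      ∀ᶠ x in 𝓝[≠] q, B x = 1 / (x - q) ^ 2 + gg q / (x - q) + h x

/-- NB2: the second derivative of the limit.
PROOF. Let `x ∉ P`. `iteratedDeriv 2 (BF ..) x = ∑_i 6/(x-p i)^4 + 2 g i/(x - p i)^3 → iteratedDeriv 2 B x` (TDE, NMO). Let `ρ ≥ 1 + ‖x‖`, `ρ ≥ c`, `2ρ ∉ {‖q‖ : q ∈ P}` (countable). Near terms (`‖p i‖ < 2ρ`): by NLP (4) they are the labels of the finitely many `q ∈ P ∩ ball 0 (2ρ)`, pairwise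
different, so the near sum tends to `∑_{q ∈ P, ‖q‖ < 2ρ}`; the far sum is `≤ K/ρ` (NFA). So the partial sums over `P ∩ ball 0 (2ρ)` tend to `iteratedDeriv 2 B x` as `ρ → ∞`; the series over `P` is absolutely convergent (finite partial sums over
`q ∈ P`, `‖q‖ ≥ R` of `6/|x-q|^4 + 2C/|x-q|^3` are `≤ K'/R` by NSU), so `tsum` equals the limit. -/
def NB2_stmt : Prop := ∀ (U : Ultrafilter ℕ) (ι : ℕ → Type) [∀ m, Fintype (ι m)] [∀ m, Nonempty (ι m)]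
  (p g : ∀ m, ι m → ℂ) (c C : ℝ) (x₁ x₂ : ℕ → ℂ) (B gg : ℂ → ℂ), Conf U ι p g c C x₁ x₂ →
  TendstoLocallyUniformlyOn (fun m => BF (p m) (g m)) B U (LP U ι p)ᶜ → (∀ q ∈ LP U ι p, ‖gg q‖ ≤ C) →
  (∀ (i : ∀ m, ι m) (q : ℂ), Tendsto (fun m => p m (i m)) U (𝓝 q) → Tendsto (fun m => g m (i m)) U (𝓝 (gg q))) →
  ∀ x ∉ LP U ι p, iteratedDeriv 2 B x =
    ∑' q : LP U ι p, (6 / (x - (q : ℂ)) ^ 4 + 2 * gg q / (x - (q : ℂ)) ^ 3)

/-- NORM: normality of `B`, everything together.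
PROOF. NLP, NMO, NBP, NB2. -/
def NORM_stmt : Prop := ∀ (U : Ultrafilter ℕ) (ι : ℕ → Type) [∀ m, Fintype (ι m)] [∀ m, Nonempty (ι m)]
  (p g : ∀ m, ι m → ℂ) (c C : ℝ) (x₁ x₂ : ℕ → ℂ), Conf U ι p g c C x₁ x₂ → ∃ B gg : ℂ → ℂ,
  (∀ q ∈ LP U ι p, ∀ q' ∈ LP U ι p, q ≠ q' → c ≤ ‖q - q'‖) ∧
  (∀ x ∉ LP U ι p, EvHol U (fun m => BF (p m) (g m)) x) ∧
  DifferentiableOn ℂ B (LP U ι p)ᶜ ∧ TendstoLocallyUniformlyOn (fun m => BF (p m) (g m)) B U (LP U ι p)ᶜ ∧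
  (∀ q ∈ LP U ι p, ‖gg q‖ ≤ C) ∧
  (∀ (i : ∀ m, ι m) (q : ℂ), Tendsto (fun m => p m (i m)) U (𝓝 q) → Tendsto (fun m => g m (i m)) U (𝓝 (gg q))) ∧
  (∀ q ∈ LP U ι p, ∃ h : ℂ → ℂ, AnalyticAt ℂ h q ∧ ∀ᶠ x in 𝓝[≠] q, B x = 1 / (x - q) ^ 2 + gg q / (x - q) + h x) ∧
  ∀ x ∉ LP U ι p, iteratedDeriv 2 B x = ∑' q : LP U ι p, (6 / (x - (q : ℂ)) ^ 4 + 2 * gg q / (x - (q : ℂ)) ^ 3)

end V3
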