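import Mathlib

/-!
# Project v3: (MP_af9036_an), part E: the end game (pure complex analysis of the limit)

Paper: /team-store/MP_af9036_V3_notes.md (helper10), sections 6.3, 9, 10, quoted as [paper, (x.y)]. This part does not depend on the
files of mp:. File `Pool/Agent/<seat>/V3/XX.lean`: `import Pool.Agent.helper54.V3.SpecE`, `set_option autoImplicit false`,
`namespace V3`, `open Complex Metric Set Filter Topology MeasureTheory`, `theorem XX (h : YY_stmt) ... : XX_stmt`.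
Any other statement of this file may be a hypothesis (no circles). Auxiliary lemmas are prefixed `XX_`.
-/

set_option autoImplicit false

open Complex Metric Set Filter Topology MeasureTheory

noncomputable section

namespace V3

/-- the energy density `|q| - Re (θ q |B|/B)` (nonnegative if `|θ| = 1`). -/
def En (θ : ℂ) (B q : ℂ → ℂ) (x : ℂ) : ℝ := ‖q x‖ - (θ * q x * (((‖B x‖ : ℝ) : ℂ) / B x)).re

/-- `B` vanishes at `z` at least to the order `m`. -/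
def OrdGe (B : ℂ → ℂ) (z : ℂ) (m : ℕ) : Prop :=
  ∃ h : ℂ → ℂ, AnalyticAt ℂ h z ∧ ∀ᶠ x in 𝓝 z, B x = (x - z) ^ m * h x

/-- the lattice line `ℤ t`. -/
def ZL (t : ℂ) : Set ℂ := Set.range (fun n : ℤ => (n : ℂ) * t)

/-- the data of the limit [paper, sections 3, 5, 6, 7, 8]: `P` poles, `A p` the linear part of `α_p x = p + A p x`, `g p` the
residues, `B`, `v`, `q = L_v B`, `θ = lim λ/|λ|`. -/
structure Lim (P : Set ℂ) (A g B v q : ℂ → ℂ) (θ : ℂ) : Prop where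
  zero : (0 : ℂ) ∈ P
  sep : ∃ s > (0 : ℝ), ∀ p ∈ P, ∀ p' ∈ P, p ≠ p' → s ≤ ‖p - p'‖
  hg : ∃ C : ℝ, ∀ p ∈ P, ‖g p‖ ≤ C
  Bd : DifferentiableOn ℂ B Pᶜ
  Bp : ∀ p ∈ P, ∃ h : ℂ → ℂ, AnalyticAt ℂ h p ∧
    ∀ᶠ x in 𝓝[≠] p, B x = 1 / (x - p) ^ 2 + g p / (x - p) + h x
  B2 : ∀ x ∉ P, iteratedDeriv 2 B x = ∑' p : P, (6 / (x - (p : ℂ)) ^ 4 + 2 * g p / (x - (p : ℂ)) ^ 3)
  vd : Differentiable ℂ v
  v0 : ∀ p ∈ P, v p = 0 ∧ deriv v p = 1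
  qd : Differentiable ℂ q
  qB : ∀ x ∉ P, q x = v x * deriv B x + 2 * deriv v x * B x
  A1 : ∀ p ∈ P, ‖A p‖ = 1
  grp : ∀ p ∈ P, ∀ p' ∈ P, p + A p * p' ∈ P
  inv : ∀ p ∈ P, ∃ p' ∈ P, p + A p * p' = 0 ∧ A p * A p' = 1
  com : ∀ p ∈ P, ∀ p' ∈ P, p + A p * p' = p' + A p' * p
  vA : ∀ p ∈ P, ∀ x, v (p + A p * x) = A p * v x
  BA : ∀ p ∈ P, ∀ x ∉ P, A p ^ 2 * B (p + A p * x) = B x
  th : ‖θ‖ = 1
  cF : P.Finite → ∀ (S : Finset ℂ) (m : ℂ → ℕ), (∀ z ∈ S, z ∉ P ∧ OrdGe B z (m z)) →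
    ∑ z ∈ S, m z + 1 ≤ 2 * P.ncard
  cZ : ∀ t : ℂ, t ≠ 0 → P = ZL t → ∀ (S : Finset ℂ) (m : ℂ → ℕ), (∀ z ∈ S, z ∉ P ∧ OrdGe B z (m z)) →
    (∀ z ∈ S, ∀ z' ∈ S, z ≠ z' → z' - z ∉ ZL t) → ∑ z ∈ S, m z ≤ 1
  eF : P.Finite → ∃ C : ℝ, ∀ R > (0 : ℝ), ∫ x in ball (0 : ℂ) R, En θ B q x ≤ C
  eZ : ∀ t : ℂ, t ≠ 0 → P = ZL t → ∃ C : ℝ, ∀ Y > (0 : ℝ), ∀ ε ∈ Ioo (0 : ℝ) (1 / 2),
    ∫ z in {z : ℂ | ε < z.re ∧ z.re < 1 - ε ∧ |z.im| < Y}, En θ B q (t * z) ≤ C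

/-! ## The group -/

/-- GSF: separated bounded sets are finite.
PROOF. Otherwise a bounded sequence of distinct points of `P` has a Cauchy subsequence. (Or: cover the compact ball by finitely many balls of
radius `s/3`, each contains at most one point of `P`.) -/
def GSF_stmt : Prop := ∀ (P : Set ℂ) (s R : ℝ), 0 < s → (∀ p ∈ P, ∀ p' ∈ P, p ≠ p' → s ≤ ‖p - p'‖) →
  (∀ p ∈ P, ‖p‖ ≤ R) → P.Finite

/-- GRO: rotations make `P` finite [paper, (6.3)].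
PROOF. Let `p ∈ P`, `A p ≠ 1`. For `p' ∈ P` `com` gives `p' (A p - 1) = p (A p' - 1)`, so `‖p'‖ ≤ 2 ‖p‖/‖A p - 1‖` by `A1`. GSF with `sep`. -/
def GRO_stmt : Prop := ∀ (P : Set ℂ) (A g B v q : ℂ → ℂ) (θ : ℂ), Lim P A g B v q θ →
  (∃ p ∈ P, A p ≠ 1) → P.Finite

/-- GLA: separated additive subgroups of `ℂ`.
PROOF. If `P` has an element `t₁ ≠ 0` and all elements are real multiples of `t₁`: `H = {r : ℝ | r t₁ ∈ P}` is an additive subgroup of `ℝ` in which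
different elements have distance `≥ s/‖t₁‖`, so it is not dense and `AddSubgroup.dense_or_cyclic` gives a generator `r₀`; `r₀ ≠ 0` as `1 ∈ H`; `t = r₀ t₁`.
Otherwise some `t₂ ∈ P` has `(t₂/t₁).im ≠ 0`. -/
def GLA_stmt : Prop := ∀ (P : Set ℂ) (s : ℝ), 0 < s → (∀ p ∈ P, ∀ p' ∈ P, p ≠ p' → s ≤ ‖p - p'‖) →
  (0 : ℂ) ∈ P → (∀ p ∈ P, ∀ p' ∈ P, p + p' ∈ P) → (∀ p ∈ P, -p ∈ P) →
  P = {0} ∨ (∃ t : ℂ, t ≠ 0 ∧ P = ZL t) ∨ (∃ t₁ ∈ P, ∃ t₂ ∈ P, t₁ ≠ 0 ∧ (t₂ / t₁).im ≠ 0)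

/-- GEL: doubly periodic entire functions are constant.
PROOF. Every `x` is `a t₁ + b t₂` with real `a, b`; subtracting integers, `v x = v x'` with `x'` in the compact image of `[0,1]²`; so `v` is bounded:
Liouville (`Differentiable.apply_eq_apply_of_bounded`). -/
def GEL_stmt : Prop := ∀ (v : ℂ → ℂ) (t₁ t₂ : ℂ), Differentiable ℂ v → (∀ x, v (x + t₁) = v x) →
  (∀ x, v (x + t₂) = v x) → t₁ ≠ 0 → (t₂ / t₁).im ≠ 0 → ∀ x y, v x = v y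

/-- GTR: trichotomy [paper, (6.3)].
PROOF. If some `A p ≠ 1`: GRO. If all `A p = 1`: `P` is closed under addition (`grp`) and negation (`inv`); GLA. `P = {0}` is finite. In the third case
`v` has the periods `t₁, t₂` (`vA`), so it is constant (GEL), contradiction to `deriv v 0 = 1` (`v0`, `zero`). -/
def GTR_stmt : Prop := ∀ (P : Set ℂ) (A g B v q : ℂ → ℂ) (θ : ℂ), Lim P A g B v q θ →
  P.Finite ∨ ∃ t : ℂ, t ≠ 0 ∧ P = ZL t ∧ ∀ p ∈ P, A p = 1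

/-! ## General facts -/

/-- AFF2: entire functions with vanishing second derivative off a closed countable set are affine.
PROOF. `iteratedDeriv 2 h` is continuous and vanishes on the dense set `Pᶜ`, so it vanishes; `deriv h` is constant, and so on. -/
def AFF2_stmt : Prop := ∀ (h : ℂ → ℂ) (P : Set ℂ), Differentiable ℂ h → P.Countable →
  (∀ x ∉ P, iteratedDeriv 2 h x = 0) → ∃ a c : ℂ, ∀ x, h x = a + c * x

/-- REMO: removing isolated singularities of a function on the complement of a separated set.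
PROOF. Define `k x = f x` for `x ∉ P` and `k p = h p` (the value of the analytic function given near `p`). Near `p` the function `k` is `h`
(other points of `P` have distance `≥ s`, and by continuity/`∀ᶠ` in the punctured neighbourhood). -/
def REMO_stmt : Prop := ∀ (f : ℂ → ℂ) (P : Set ℂ) (s : ℝ), 0 < s →
  (∀ p ∈ P, ∀ p' ∈ P, p ≠ p' → s ≤ ‖p - p'‖) → DifferentiableOn ℂ f Pᶜ →
  (∀ p ∈ P, ∃ h : ℂ → ℂ, AnalyticAt ℂ h p ∧ ∀ᶠ x in 𝓝[≠] p, f x = h x) →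
  ∃ k : ℂ → ℂ, Differentiable ℂ k ∧ ∀ x ∉ P, k x = f x

/-- SQC: two continuous functions with the same square on a connected set, one of them without zeros.
PROOF. `f/g` is continuous with square `1` on a preconnected set, so constant. -/
def SQC_stmt : Prop := ∀ (Ω : Set ℂ) (f g : ℂ → ℂ), IsPreconnected Ω → ContinuousOn f Ω →
  ContinuousOn g Ω → (∀ x ∈ Ω, g x ≠ 0) → (∀ x ∈ Ω, f x ^ 2 = g x ^ 2) →
  ∃ s : ℂ, (s = 1 ∨ s = -1) ∧ ∀ x ∈ Ω, f x = s * g x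

/-- PCO: the complement of a separated set is open and connected, the set is closed and countable.
PROOF. Closed: separated. Countable: finite on every ball (GSF). `Set.Countable.isPathConnected_compl_of_one_lt_rank`. -/
def PCO_stmt : Prop := ∀ (P : Set ℂ) (s : ℝ), 0 < s → (∀ p ∈ P, ∀ p' ∈ P, p ≠ p' → s ≤ ‖p - p'‖) →
  IsClosed P ∧ P.Countable ∧ IsPreconnected Pᶜ

/-- VB1: if `q = 0` then `v² B = 1` [paper, (9.3)].
PROOF. On the connected open set `Pᶜ` (PCO) the derivative of `v² B` is `v (v B' + 2 v' B) = v q = 0`, so it is constant; near `0 ∈ P` we have `v x = x (1 + o(1))`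
and `x² B x → 1` (`Bp`), so the constant is `1`. -/
def VB1_stmt : Prop := ∀ (P : Set ℂ) (A g B v q : ℂ → ℂ) (θ : ℂ), Lim P A g B v q θ →
  (∀ x, q x = 0) → ∀ x ∉ P, v x ^ 2 * B x = 1

/-- ENB: the density is nonnegative, bounded by `2‖q‖` and integrable on bounded sets; it is continuous off `P` and the zeros of `B`.
PROOF. `‖θ q |B|/B‖ ≤ ‖q‖`. Measurable: `B` is measurable: it is continuous on the open set `Pᶜ`, and `P` is countable (use `Measurable.ite`-like arguments or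
`measurable_of_continuousOn_compl_singleton`-style; or show a.e. measurability: `P` is a null set). -/
def ENB_stmt : Prop := ∀ (P : Set ℂ) (A g B v q : ℂ → ℂ) (θ : ℂ), Lim P A g B v q θ →
  (∀ x, 0 ≤ En θ B q x ∧ En θ B q x ≤ 2 * ‖q x‖) ∧ Measurable (En θ B q) ∧
  (∀ R : ℝ, IntegrableOn (En θ B q) (ball 0 R))

/-! ## Case (F): `P` finite -/

/-- FSUM: the formula for `B` [paper, (9.1)].
PROOF. `f x = B x - ∑_p (1/(x-p)² + g p/(x-p))` satisfies the assumptions of REMO (`Bp`, the other summands are analytic at `p`); its extension `k` has second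
derivative `0` off `P` by `B2` (`tsum` over a finite type is a finite sum, `P = ↑Pf`); AFF2. -/
def FSUM_stmt : Prop := ∀ (P : Set ℂ) (A g B v q : ℂ → ℂ) (θ : ℂ) (Pf : Finset ℂ),
  Lim P A g B v q θ → P = ↑Pf → ∃ a c : ℂ, ∀ x ∉ P,
    B x = ∑ p ∈ Pf, (1 / (x - p) ^ 2 + g p / (x - p)) + a + c * x

/-- FPOL: the numerator.
PROOF. `N = ∑_p (1 + C (g p) (X - C p)) ∏_{p' ≠ p} (X - C p')² + (C a + C c X) ∏_p (X - C p)²`. The first sum has degree `≤ 2 #P - 1`; the second term has degree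
`2 #P + 1` if `c ≠ 0`, `2 #P` if `c = 0 ≠ a`. `N(p) = ∏_{p' ≠ p} (p-p')² ≠ 0`. -/
def FPOL_stmt : Prop := ∀ (Pf : Finset ℂ) (g : ℂ → ℂ) (a c : ℂ), Pf.Nonempty →
  ∃ N : Polynomial ℂ, (∀ x ∉ Pf, (∑ p ∈ Pf, (1 / (x - p) ^ 2 + g p / (x - p)) + a + c * x) *
      ∏ p ∈ Pf, (x - p) ^ 2 = N.eval x) ∧ (∀ p ∈ Pf, N.eval p ≠ 0) ∧
    (c ≠ 0 ∨ a ≠ 0 → 2 * Pf.card ≤ N.natDegree)

/-- FRAT: `B` is rational with small numerator [paper, (9.1)].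
PROOF. FSUM, FPOL: `B x = N(x)/∏ (x-p)²` off `P`. `N ≠ 0`. Its roots (with multiplicity: `S = N.roots.toFinset`, `m = N.rootMultiplicity`) are not in `P` and `OrdGe B z (m z)`
there (`Polynomial.exists_eq_pow_rootMultiplicity_mul_and_not_dvd`); `∑ m = natDegree N` (algebraically closed: `IsAlgClosed.splits`, `Polynomial.splits_iff_card_roots`,
`Multiset.toFinset_sum_count_eq`); `Lim.cF`: `natDegree N + 1 ≤ 2 #P`. -/
def FRAT_stmt : Prop := ∀ (P : Set ℂ) (A g B v q : ℂ → ℂ) (θ : ℂ) (Pf : Finset ℂ),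
  Lim P A g B v q θ → P = ↑Pf → ∃ N : Polynomial ℂ, N ≠ 0 ∧ N.natDegree < 2 * Pf.card ∧
    (∀ p ∈ Pf, N.eval p ≠ 0) ∧ ∀ x ∉ Pf, B x = N.eval x / ∏ p ∈ Pf, (x - p) ^ 2

/-- FPH: the phase of a rational function of negative degree near infinity.
PROOF. `M = ∏ (X - C p)²` is monic of degree `2 #P`. `N(x)/(lc x^a) → 1` and `M(x)/x^b → 1` with error `O(1/|x|)` (`a = natDegree N`, `b = 2 #P`). So `B x = lc x^{-d} (1 + O(1/|x|))` with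
`d = b - a`, and `|B|/B = (|lc|/lc) (x/|x|)^d (1 + O(1/|x|))`. -/
def FPH_stmt : Prop := ∀ (Pf : Finset ℂ) (N : Polynomial ℂ) (B : ℂ → ℂ), N ≠ 0 →
  N.natDegree < 2 * Pf.card → (∀ x ∉ Pf, B x = N.eval x / ∏ p ∈ Pf, (x - p) ^ 2) →
  ∃ (d : ℕ) (c₀ : ℂ) (K R₀ : ℝ), 1 ≤ d ∧ ‖c₀‖ = 1 ∧ 0 < R₀ ∧ ∀ x : ℂ, R₀ ≤ ‖x‖ →
    ‖((‖B x‖ : ℝ) : ℂ) / B x - c₀ * (x / (‖x‖ : ℝ)) ^ d‖ ≤ K / ‖x‖

/-- FPL: lower bound of an integral over a disc by circle integrals.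
PROOF. Polar coordinates (`Complex.integral_comp_polarCoord_symm`): `∫_{ball 0 R} f = ∫_{0<r<R} r ∫_{-π<φ<π} f(r e^{iφ})` (Fubini, `f` integrable on the ball; the indicator of the ball is
`r < R`), drop `r < R₁`; the inner integral is `≥ κ` (periodicity: the integral over `(0,2π)` equals the one over `(-π,π)`). -/
def FPL_stmt : Prop := ∀ (f : ℂ → ℝ) (κ R₁ R : ℝ), Measurable f → (∀ x, 0 ≤ f x) → IntegrableOn f (ball 0 R) →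
  0 < R₁ → R₁ < R → 0 ≤ κ →
  (∀ r : ℝ, R₁ ≤ r → κ ≤ ∫ φ in (0 : ℝ)..(2 * Real.pi), f (r * exp (φ * I))) →
  κ * ((R ^ 2 - R₁ ^ 2) / 2) ≤ ∫ x in ball (0 : ℂ) R, f x

/-- FCI: circle integrals of entire functions.
PROOF. (1) `∫ q(r e^{iφ}) e^{idφ} dφ = (1/(i r^d)) ∮ q(z) z^{d-1} dz = 0` (Cauchy). (2) `q` not identically zero: `q z = z^n h z`, `h` entire, `h 0 ≠ 0`
(`AnalyticAt.exists_eventuallyEq_pow_smul_nonzero_iff`, or power series); `∫ ‖q‖ = r^n ∫ ‖h(r e^{iφ})‖ ≥ r^n ‖∫ h‖ = 2π r^n ‖h 0‖` for `r ≥ 1`. -/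
def FCI_stmt : Prop := ∀ q : ℂ → ℂ, Differentiable ℂ q →
  (∀ (d : ℕ) (r : ℝ), 1 ≤ d → 0 < r → ∫ φ in (0 : ℝ)..(2 * Real.pi), q (r * exp (φ * I)) * exp (d * φ * I) = 0) ∧
  ((∃ x, q x ≠ 0) → ∃ κ > (0 : ℝ), ∀ r : ℝ, 1 ≤ r → κ ≤ ∫ φ in (0 : ℝ)..(2 * Real.pi), ‖q (r * exp (φ * I))‖)

/-- FQ0: `q = 0` in case (F) [paper, (9.2)].
PROOF. FRAT, FPH. On `|x| = r` large, `En = ‖q‖ - Re(θ q |B|/B) ≥ ‖q‖ - Re(θ c₀ q (x/|x|)^d) - (K/r) ‖q‖`; integrate: the middle term gives `0` by FCI (1) (`(x/|x|)^d = e^{idφ}`); so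
`∫ En ≥ (1 - K/r) ∫‖q‖ ≥ κ/2` if `q ≠ 0` (FCI (2)). (Integrability on the circle: `En` is bounded by `2‖q‖` and, for `r > R₀`, continuous, as `B` has no zeros or poles there.)
FPL with ENB: `∫_{ball 0 R} En ≥ κ (R²-R₁²)/4`, contradiction to `Lim.eF` for large `R`. -/
def FQ0_stmt : Prop := ∀ (P : Set ℂ) (A g B v q : ℂ → ℂ) (θ : ℂ), Lim P A g B v q θ →
  P.Finite → ∀ x, q x = 0

/-- FLAG: the sum of the inverse derivatives.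
PROOF. Lagrange interpolation of the constant `1` on `Pf` (`Lagrange.sum_basis`): compare the coefficient of `X^{#P-1}`, `#P ≥ 2`: `∑_p ∏_{p' ≠ p} (p - p')⁻¹ = 0`. -/
def FLAG_stmt : Prop := ∀ Pf : Finset ℂ, 2 ≤ Pf.card → ∑ p ∈ Pf, (∏ p' ∈ Pf.erase p, (p - p'))⁻¹ = 0

/-- FEND: end of case (F) [paper, (9.3)].
PROOF. FQ0, VB1: `v² B = 1` off `P`. FRAT: `v(x)² N(x) = ∏ (x-p)²` off `P`, hence everywhere (continuity, `P` finite). So `N` has no roots (a root is not in `P`), `N = C n₀`. Let `s² = 1/n₀`;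
`v² = (s ∏ (x-p))²` on the connected set `Pᶜ`, `∏ ≠ 0` there: SQC: `v = c' ∏ (x-p)` off `P`, hence everywhere. `v'(p) = c' ∏_{p' ≠ p} (p-p') = 1` for all `p ∈ P`. If `#P ≥ 2`: FLAG gives `∑_p c' = 0`,
contradiction. So `P = {0}`, `v x = x` and `B x = 1/x²`. -/
def FEND_stmt : Prop := ∀ (P : Set ℂ) (A g B v q : ℂ → ℂ) (θ : ℂ), Lim P A g B v q θ →
  P.Finite → P = {0} ∧ ∀ x : ℂ, x ≠ 0 → B x = 1 / x ^ 2

/-! ## Case (Z): `P = ℤ t`. Notation `L = 2πi/t`, `y = exp (L x)`. -/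

/-- PPE: periodicity.
PROOF. `vA`, `BA` with `A p = 1` and `p = t` (`x ∉ P ↔ x + t ∉ P`); `q` by `qB` off `P` (derivatives of periodic functions are periodic), then by continuity; `g p = g 0` by comparing `Bp` at `0`
and `p` with the periodicity of `B`: `g p - g 0 = lim (x-p) (B x - 1/(x-p)²) - lim x (B x - 1/x²) = 0`. -/
def PPE_stmt : Prop := ∀ (P : Set ℂ) (A g B v q : ℂ → ℂ) (θ t : ℂ), Lim P A g B v q θ → t ≠ 0 →
  P = ZL t → (∀ p ∈ P, A p = 1) →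
  (∀ x, v (x + t) = v x) ∧ (∀ x, q (x + t) = q x) ∧ (∀ x ∉ P, B (x + t) = B x) ∧ (∀ p ∈ P, g p = g 0)

/-- PDE: `B''` tends to `0` away from the line of poles.
PROOF. `x = t z`, `|Im z| = Y ≥ 1`: `|x - n t| = |t| |z - n| ≥ |t| max(Y, |Re z - n|)`; so `‖∑' 6/(x-nt)^4 + 2 g/(x-nt)^3‖ ≤ C' ∑_n 1/max(Y,|Re z - n|)^3 ≤ C''/Y` (sum over `ℤ`; the summand is
`≤ (1/Y) 1/max(1,|Re z - n|)²`, and `∑_n 1/max(1,|s - n|)² ≤ 3 + 2 ζ(2) ≤ 10` for every real `s`). The `tsum` over `P = ZL t` is a `tsum` over `ℤ` by the bijection `n ↦ n t`. `norm_tsum_le_tsum_norm`. -/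
def PDE_stmt : Prop := ∀ (P : Set ℂ) (A g B v q : ℂ → ℂ) (θ t : ℂ), Lim P A g B v q θ → t ≠ 0 →
  P = ZL t → ∃ K : ℝ, ∀ x : ℂ, 1 ≤ |(x / t).im| → ‖iteratedDeriv 2 B x‖ ≤ K / |(x / t).im|

/-- PR0: the model `R₀ = L² y/(y-1)² + g L/(y-1)`.
PROOF. (1) `y - 1 = L x (1 + L x/2 + ...)`: `1/(y-1) = 1/(L x) + k₁(x)` and (differentiate) `L² y/(y-1)² = 1/x² - L k₁'(x)` near `0` with `k₁` analytic at `0` (e.g. `(y-1) = x E(x)`, `E` entire, `E 0 = L`). At `n t` by periodicity.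
(2) The second derivative is `rational function of y`, tends to `0` for `y → 0` and `y → ∞`: every derivative of `R₀` is `L y d/dy` of it, which has a factor `y` in the numerator and denominator degree larger than the numerator
degree: `(L y d/dy)² R₀ = y S(y)/(y-1)^4` with `deg S ≤ 2`; bounded by `K |y|/(1+|y|)²` for `| |y| - 1| ≥ 1 - e^{-2π}`-ish, i.e. `|Im (x/t)| ≥ 1` (`|y| = exp(-2π Im(x/t))`). -/
def PR0_stmt : Prop := ∀ (t g₀ : ℂ), t ≠ 0 → ∃ R₀ : ℂ → ℂ,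
  (∀ x, R₀ x = (2 * Real.pi * I / t) ^ 2 * exp (2 * Real.pi * I * x / t) / (exp (2 * Real.pi * I * x / t) - 1) ^ 2 +
    g₀ * (2 * Real.pi * I / t) / (exp (2 * Real.pi * I * x / t) - 1)) ∧
  DifferentiableOn ℂ R₀ (ZL t)ᶜ ∧
  (∀ p ∈ ZL t, ∃ h : ℂ → ℂ, AnalyticAt ℂ h p ∧ ∀ᶠ x in 𝓝[≠] p, R₀ x = 1 / (x - p) ^ 2 + g₀ / (x - p) + h x) ∧
  (∃ K : ℝ, ∀ x : ℂ, 1 ≤ |(x / t).im| → ‖iteratedDeriv 2 R₀ x‖ ≤ K / |(x / t).im|)

/-- PRAT: `B` is rational in `y` [paper, (10.1)].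
PROOF. `f = B - R₀` (`g₀ = g 0`, PPE) extends to an entire function `k` (REMO), periodic. `k'' = iteratedDeriv 2 k` is entire, periodic, `≤ 2K/|Im(x/t)|` for `|Im(x/t)| ≥ 1` (PDE, PR0) and bounded on the
rest by periodicity and compactness: constant (Liouville), and it tends to `0`: `k'' = 0`, AFF2: `k = a + c x`, periodic: `c = 0`. So `B = a + L² y/(y-1)² + g L/(y-1) = (α y² + β y + γ)/(y-1)²` with
`α = a`, `β = L² + g L - 2a`, `γ = a - g L`, sum `L²`. -/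
def PRAT_stmt : Prop := ∀ (P : Set ℂ) (A g B v q : ℂ → ℂ) (θ t : ℂ), Lim P A g B v q θ → t ≠ 0 →
  P = ZL t → (∀ p ∈ P, A p = 1) → ∃ α β γ : ℂ, α + β + γ = (2 * Real.pi * I / t) ^ 2 ∧ ∀ x ∉ P,
    B x = (α * exp (2 * Real.pi * I * x / t) ^ 2 + β * exp (2 * Real.pi * I * x / t) + γ) /
      (exp (2 * Real.pi * I * x / t) - 1) ^ 2

/-- PCN: at most one zero [paper, (10.2)].
PROOF. Suppose `α γ ≠ 0`. `α y² + β y + γ = α (y - y₁)(y - y₂)` with `y₁ y₂ = γ/α ≠ 0`, `y_i ≠ 1` (the value at `1` is `L² ≠ 0`). Take `z_i` with `exp (L z_i) = y_i`; `z_i ∉ P` as `y_i ≠ 1`. If `y₁ ≠ y₂`: `S = {z₁, z₂}`, `m = 1`, they are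
inequivalent mod `ℤ t` (else `y₁ = y₂`). If `y₁ = y₂`: `S = {z₁}`, `m = 2`. In both cases `OrdGe B z (m z)` (`exp (L x) - y_i = (x - z_i) · analytic`, `dslope`) and `∑ m = 2`: contradiction to `Lim.cZ`. -/
def PCN_stmt : Prop := ∀ (P : Set ℂ) (A g B v q : ℂ → ℂ) (θ t α β γ : ℂ), Lim P A g B v q θ → t ≠ 0 →
  P = ZL t → α + β + γ = (2 * Real.pi * I / t) ^ 2 → (∀ x ∉ P,
    B x = (α * exp (2 * Real.pi * I * x / t) ^ 2 + β * exp (2 * Real.pi * I * x / t) + γ) /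
      (exp (2 * Real.pi * I * x / t) - 1) ^ 2) → α = 0 ∨ γ = 0

/-- PSG: the sign of `t`: one may assume `γ = 0`.
PROOF. PRAT, PCN. If `γ = 0` take `t' = t`. If `α = 0` take `t' = -t` (`ZL (-t) = ZL t`), `y' = 1/y`: `(β y + γ)/(y-1)² = (γ y'² + β y')/(y'-1)²`. -/
def PSG_stmt : Prop := ∀ (P : Set ℂ) (A g B v q : ℂ → ℂ) (θ t : ℂ), Lim P A g B v q θ → t ≠ 0 →
  P = ZL t → (∀ p ∈ P, A p = 1) → ∃ t' α β : ℂ, t' ≠ 0 ∧ P = ZL t' ∧ α + β = (2 * Real.pi * I / t') ^ 2 ∧ ∀ x ∉ P,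
    B x = (α * exp (2 * Real.pi * I * x / t') ^ 2 + β * exp (2 * Real.pi * I * x / t')) /
      (exp (2 * Real.pi * I * x / t') - 1) ^ 2

/-- PFO: Fourier coefficients of periodic entire functions.
PROOF. `M_n(η) = ∫_0^1 q(t(s+iη)) e^{-2πi n (s+iη)} ds` is independent of `η` (Cauchy on the rectangle `0 ≤ s ≤ 1`: the integrand is entire and `1`-periodic in `s`; or differentiate in `η`: `∂_η = i ∂_s`). Take `c n = M_n`; then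
`∫_0^1 q(t(s+iη)) e^{-2πi n s} ds = c n · e^{-2π n η}`. If all `c n = 0`: the continuous `1`-periodic function `s ↦ q(t s)` has vanishing Fourier coefficients, so it vanishes (`AddCircle` Fourier theory: `fourierCoeff`, `hasSum_fourier_series_of_summable` or
L² completeness), then the identity theorem. -/
def PFO_stmt : Prop := ∀ (q : ℂ → ℂ) (t : ℂ), Differentiable ℂ q → t ≠ 0 → (∀ x, q (x + t) = q x) →
  ∃ c : ℤ → ℂ, (∀ (n : ℤ) (η : ℝ), ∫ s in (0 : ℝ)..1, q (t * (s + η * I)) * exp (-(2 * Real.pi * I * n * s)) =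
    c n * Real.exp (-(2 * Real.pi * n * η))) ∧ ((∀ n, c n = 0) → ∀ x, q x = 0)

/-- PPH: the phases at the two ends [paper, (10.3)].
PROOF. `x = t (s + iη)`, `y = e^{2πis} e^{-2πη}`. `B = y (α y + β)/(y-1)²`. For `η → +∞`, `|y| = e^{-2πη} → 0`: if `β ≠ 0`, `B = β y (1 + O(|y|))`, `|B|/B = (|β|/β) e^{-2πis} (1+O(|y|))`, `j = 1`; if `β = 0` then `α ≠ 0`, `j = 2`.
For `η → -∞`, `|y| → ∞`: if `α ≠ 0`, `B = α (1 + O(1/|y|))`, `j = 0`; if `α = 0`, `B = (β/y)(1+O(1/|y|))`, `j = -1`. (`|w| ≤ 1/2`: `| |1+w|/(1+w) - 1 | ≤ 4 |w|`.) -/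
def PPH_stmt : Prop := ∀ (B : ℂ → ℂ) (t α β : ℂ), t ≠ 0 → (α ≠ 0 ∨ β ≠ 0) → (∀ x ∉ ZL t,
    B x = (α * exp (2 * Real.pi * I * x / t) ^ 2 + β * exp (2 * Real.pi * I * x / t)) /
      (exp (2 * Real.pi * I * x / t) - 1) ^ 2) →
  ∃ (K Y₀ : ℝ) (j₁ j₂ : ℤ) (c₁ c₂ : ℂ), 0 < Y₀ ∧ 1 ≤ j₁ ∧ j₂ ≤ 0 ∧ ‖c₁‖ = 1 ∧ ‖c₂‖ = 1 ∧
    (∀ s η : ℝ, Y₀ ≤ η → ‖((‖B (t * (s + η * I))‖ : ℝ) : ℂ) / B (t * (s + η * I)) -
      c₁ * exp (-(2 * Real.pi * I * j₁ * s))‖ ≤ K * Real.exp (-(2 * Real.pi * η))) ∧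
    (∀ s η : ℝ, η ≤ -Y₀ → ‖((‖B (t * (s + η * I))‖ : ℝ) : ℂ) / B (t * (s + η * I)) -
      c₂ * exp (-(2 * Real.pi * I * j₂ * s))‖ ≤ K * Real.exp (2 * Real.pi * η))

/-- PSL: slices of the energy.
PROOF. Fubini on the rectangle (`Complex.measurableEquivRealProd`, volume preserving): `∫_{ε<Re z<1-ε, |Im z|<Y} En (t z) = ∫_{-Y}^{Y} ∫_ε^{1-ε} En(t(s+iη)) ds dη`; let `ε → 0` (monotone/dominated convergence: `0 ≤ En ≤ 2‖q‖`, bounded on the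
rectangle); restrict to `η ∈ (Y₁, Y₂)`. If the inner integrals are `≥ κ` there: `κ (Y₂ - Y₁) ≤ C`. -/
def PSL_stmt : Prop := ∀ (P : Set ℂ) (A g B v q : ℂ → ℂ) (θ t : ℂ), Lim P A g B v q θ → t ≠ 0 →
  P = ZL t → ∃ C : ℝ, ∀ (Y₁ Y₂ κ : ℝ), Y₁ < Y₂ → 0 ≤ κ →
    (∀ η ∈ Ioo Y₁ Y₂, κ ≤ ∫ s in (0 : ℝ)..1, En θ B q (t * (s + η * I))) → κ * (Y₂ - Y₁) ≤ C

/-- PIN: a slice from below.
PROOF. `∫_0^1 En = ∫‖q‖ - Re ∫ θ q |B|/B ≥ (1 - δ) ∫ ‖q‖ - ‖∫ q e^{-2πi j s} ds‖` if `‖ |B|/B - c e^{-2πijs}‖ ≤ δ` on the slice, `‖θ‖ = ‖c‖ = 1`, and `∫‖q‖ ≥ ‖∫ q e^{-2πins} ds‖` for every `n`. (`B(t(s+iη))` is continuous in `s` and nonzero because the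
quotient has modulus close to `1`, `δ < 1`, so the integrals exist; the hypothesis `ContinuousOn` gives it.) -/
def PIN_stmt : Prop := ∀ (B q : ℂ → ℂ) (θ t c : ℂ) (j n : ℤ) (η δ : ℝ), Differentiable ℂ q →
  Continuous (fun s : ℝ => B (t * (s + η * I))) → ‖θ‖ = 1 → ‖c‖ = 1 → 0 ≤ δ → δ < 1 →
  (∀ s : ℝ, ‖((‖B (t * (s + η * I))‖ : ℝ) : ℂ) / B (t * (s + η * I)) - c * exp (-(2 * Real.pi * I * j * s))‖ ≤ δ) →
  (1 - δ) * ‖∫ s in (0 : ℝ)..1, q (t * (s + η * I)) * exp (-(2 * Real.pi * I * n * s))‖ -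
    ‖∫ s in (0 : ℝ)..1, q (t * (s + η * I)) * exp (-(2 * Real.pi * I * j * s))‖ ≤
    ∫ s in (0 : ℝ)..1, En θ B q (t * (s + η * I))

/-- PQ0: `q = 0` in case (Z) [paper, (10.3)].
PROOF. PPE (`q` periodic), PFO (`c n`), PPH (`α ≠ 0 ∨ β ≠ 0` as `α + β = L² ≠ 0`), PSL, PIN. Upper end, `n ≤ 0`: if `c n ≠ 0`, for `η ≥ Y₁` large `∫ En ≥ (1 - K e^{-2πη}) |c n| e^{-2πnη} - |c j₁| e^{-2πj₁η} ≥ |c n|/2 =: κ`
(`j₁ ≥ 1`): PSL with `Y₂ → ∞`: contradiction. So `c n = 0` for all `n ≤ 0`, in particular `c j₂ = 0`. Lower end, `n ≥ 1`: `η ≤ -Y₁`: `∫ En ≥ (1 - K e^{2πη}) |c n| e^{-2πnη} ≥ |c n|/2`: contradiction unless `c n = 0`. So all `c n = 0`. -/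
def PQ0_stmt : Prop := ∀ (P : Set ℂ) (A g B v q : ℂ → ℂ) (θ t α β : ℂ), Lim P A g B v q θ → t ≠ 0 →
  P = ZL t → (∀ p ∈ P, A p = 1) → α + β = (2 * Real.pi * I / t) ^ 2 → (∀ x ∉ P,
    B x = (α * exp (2 * Real.pi * I * x / t) ^ 2 + β * exp (2 * Real.pi * I * x / t)) /
      (exp (2 * Real.pi * I * x / t) - 1) ^ 2) → ∀ x, q x = 0

/-- PEN: end of case (Z) [paper, (10.4)].
PROOF. PSG, PQ0, VB1: `v² B = 1` off `P`. So `α β = 0`: otherwise `y = -β/α ≠ 1` (as `α + β ≠ 0`), `≠ 0`, is a value `exp(L x)`, `x ∉ P`, `B x = 0`. If `α = 0`: `v² = (y-1)²/(β y)`, so with `s² = 1/β`, `v = ± s (y-1) exp(-L x/2)` on `Pᶜ` (SQC, PCO); replacing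
`x` by `x + t`: `v(x+t) = -v(x)`, so `v = 0` on `Pᶜ`, contradiction. If `β = 0`: `α = L² ≠ 0`, `v² = ((1 - 1/y) /L)²`, SQC: `v = c' (1 - 1/y)` on `Pᶜ`, then on `ℂ` by continuity. -/
def PEN_stmt : Prop := ∀ (P : Set ℂ) (A g B v q : ℂ → ℂ) (θ t : ℂ), Lim P A g B v q θ → t ≠ 0 →
  P = ZL t → (∀ p ∈ P, A p = 1) → ∃ t' c' : ℂ, t' ≠ 0 ∧ P = ZL t' ∧ c' ≠ 0 ∧
    (∀ x, v x = c' * (1 - exp (-(2 * Real.pi * I * x / t')))) ∧ ∀ x ∉ P, v x ^ 2 * B x = 1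

/-- ENDG: the end game.
PROOF. GTR, FEND, PEN. -/
def ENDG_stmt : Prop := ∀ (P : Set ℂ) (A g B v q : ℂ → ℂ) (θ : ℂ), Lim P A g B v q θ →
  (P = {0} ∧ ∀ x : ℂ, x ≠ 0 → B x = 1 / x ^ 2) ∨
  (∃ t c' : ℂ, t ≠ 0 ∧ P = ZL t ∧ (∀ p ∈ P, A p = 1) ∧ c' ≠ 0 ∧
    (∀ x, v x = c' * (1 - exp (-(2 * Real.pi * I * x / t)))) ∧ ∀ x ∉ P, v x ^ 2 * B x = 1)

/-! ## The identity on closed chains [paper, (10.5)] -/

/-- a closed chain of `m` curves. -/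
structure Chain (m : ℕ) (γ : ℕ → ℝ → ℂ) : Prop where
  c1 : ∀ j < m, ContDiffOn ℝ 1 (γ j) (Icc 0 1)
  cl : ∀ j < m, γ j 1 = γ (j + 1) 0
  per : γ m 0 = γ 0 0

/-- the integral of `f dz` along the chain. -/
def chi (m : ℕ) (γ : ℕ → ℝ → ℂ) (f : ℂ → ℂ) : ℂ :=
  ∑ j ∈ Finset.range m, ∫ s in (0 : ℝ)..1, f (γ j s) * derivWithin (γ j) (Icc 0 1) s

/-- CHP: integrals of polynomials along closed chains vanish.
PROOF. Primitive, fundamental theorem on each curve (`intervalIntegral.integral_eq_sub_of_hasDerivAt_of_le`-type), telescoping, `γ m 0 = γ 0 0`. -/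
def CHP_stmt : Prop := ∀ (m : ℕ) (γ : ℕ → ℝ → ℂ) (p : Polynomial ℂ), Chain m γ →
  chi m γ (fun z => p.eval z) = 0

/-- CHF: no winding around zeros of `F` [paper, (10.5)].
PROOF. `F(a) = 0`: `(1 - F)^M - 1` vanishes at `a`, so it is `(X - C a) * poly`; by CHP `chi (1/(z-a)) = chi ((1-F)^M/(z-a))` for every `M`, and `‖(1-F)^M‖ ≤ 2^{-M}` on the curves, `1/(z-a)` is bounded on the compact curves
(`a` is not on them, since `‖F a - 1‖ = 1`): the right side tends to `0`. -/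
def CHF_stmt : Prop := ∀ (m : ℕ) (γ : ℕ → ℝ → ℂ) (F : Polynomial ℂ) (a : ℂ), Chain m γ →
  (∀ j < m, ∀ s ∈ Icc (0 : ℝ) 1, ‖F.eval (γ j s) - 1‖ ≤ 1 / 2) → F.eval a = 0 →
  chi m γ (fun z => 1 / (z - a)) = 0

/-- CHI: the identity [paper, (10.5)].
PROOF. `v'/v = ∑_{roots} 1/(z - a)` (`Polynomial.eval_derivative_div_eval_of_ne_zero_of_splits` or `Polynomial.derivative_prod`), the roots of `v` are the simple roots `a ∈ Z` and others, which are roots of `F` (CHF: they contribute `0`). `W = F/v`-part: the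
hypothesis says `w z = κ ∑_{a ∈ Z} 1/(z-a) + Q(z)` off `Z`, with a polynomial `Q` (CHP). So both sides are `κ ∑_{a∈Z} chi(1/(z-a))`. (Points of `Z` are not on the curves.) -/
def CHI_stmt : Prop := ∀ (m : ℕ) (γ : ℕ → ℝ → ℂ) (F v Q : Polynomial ℂ) (Z : Finset ℂ) (κ : ℂ) (w : ℂ → ℂ),
  Chain m γ → v ≠ 0 → (∀ j < m, ∀ s ∈ Icc (0 : ℝ) 1, ‖F.eval (γ j s) - 1‖ ≤ 1 / 2 ∧ v.eval (γ j s) ≠ 0) →
  (∀ a ∈ Z, v.rootMultiplicity a = 1) → (∀ a ∉ Z, v.eval a = 0 → F.eval a = 0) →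
  (∀ z ∉ Z, w z = κ * ∑ a ∈ Z, 1 / (z - a) + Q.eval z) →
  chi m γ w = κ * chi m γ (fun z => v.derivative.eval z / v.eval z)

end V3
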