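import Pool.Agent.helper10.V3.SpecL
import Pool.Agent.helper54.V3.SpecE

/-!
# Project v3: (MP_af9036_an, MP_70a088_an), part G: labels, counting of zeros, energy, last identity; `END_stmt`

Paper: /team-store/MP_af9036_V3_notes.md (helper10), sections 6, 7, 8, 9.3, 10.6, quoted as [paper, (x.y)]. Definitions: Pool/Agent/helper10/V3/Defs.lean.
File `Pool/Agent/<seat>/V3/XX.lean`: `import Pool.Agent.helper54.V3.SpecG`, `set_option autoImplicit false`, `namespace V3S`,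
`open Complex Metric Set Filter Topology MeasureTheory MPS V3`, `theorem XX (h : YY_stmt) ... : XX_stmt`.
Hypotheses may be: other statements of this file (no circles), all statements of Pool/Agent/helper10/V3/SpecL.lean (`V3S`; in particular BA1, BA2, BA3, LPI, LMB, REG, VLM), all statements of SpecE, SpecT (namespace `V3`),
all statements of the pp: specs (`PPS`) and of `MPS`. The hypotheses `Seq`, `LimOK` are both given, so LPI, LMB, .. may be used or the corresponding field of `LimOK`.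
Auxiliary lemmas are prefixed `XX_`. `U`-statements of SpecT are applied with `U = hyperfilter ℕ` (`UF` unfolds to its coercion; `UF_em`, `UF_not` in Defs).
A negated statement (not eventually for all `j, x, ..`) gives by `UF_not` and choice sequences `j m, x m, ..` which are bad for `UF`-almost all `m`: this is how uniformity in `j ≤ k` is proved.
-/

set_option autoImplicit false

open Complex Metric Set Filter Topology MeasureTheory MPS V3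

noncomputable section

namespace V3S

/-- the pulled back differential `(F_j)^* B` in the `x`-plane. -/
def Dat.T (D : Dat) (j : ℕ) (x : ℂ) : ℂ := deriv (D.F j) x ^ 2 * D.B (D.F j x)

/-- `((f^k)^* B - B)/lam`, close to `L_v B`. -/
def Dat.q (D : Dat) (x : ℂ) : ℂ := (D.T D.k x - D.B x) / D.lam

/-- the energy density of one datum. -/
def Dat.en (D : Dat) (x : ℂ) : ℝ :=
  ‖D.q x‖ - (D.lam / ‖D.lam‖ * D.q x * (((‖D.T D.k x‖ : ℝ) : ℂ) / D.T D.k x)).re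

/-- the labels `l m` converge to the pole `p`. -/
def LabTo (D : ℕ → Dat) (l : ∀ m, ZMod (D m).k) (p : ℂ) : Prop :=
  Tendsto (fun m => (D m).p (l m)) UF (𝓝 p)

/-- the linear parts of the limit maps `α_p x = p + A p x` [paper, (6.1)]. -/
structure AL (D : ℕ → Dat) (A : ℂ → ℂ) : Prop where
  one : A 0 = 1
  nrm : ∀ p ∈ Pin D, ‖A p‖ = 1
  inv : ∀ p ∈ Pin D, -p / A p ∈ Pin D ∧ A (-p / A p) = 1 / A p
  tend : ∀ p ∈ Pin D, ∀ l, LabTo D l p → Tendsto (fun m => (D m).A (l m).val) UF (𝓝 (A p))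
  neg : ∀ p ∈ Pin D, ∀ l, LabTo D l p → LabTo D (fun m => -(l m)) (-p / A p)
  unif : ∀ p ∈ Pin D, ∀ l, LabTo D l p → ∀ ρ > (0 : ℝ), ∀ ε > (0 : ℝ), ∀ᶠ m in UF, ∀ x ∈ ball (0 : ℂ) ρ,
    ‖(D m).F (l m).val x - (p + A p * x)‖ ≤ ε ∧ ‖deriv ((D m).F (l m).val) x - A p‖ ≤ ε

/-- the residues of the limit (`LimOK.gg` and their convergence). -/
structure GG (D : ℕ → Dat) (g : ℂ → ℂ) : Prop where
  bd : ∃ C : ℝ, ∀ p ∈ Pin D, ‖g p‖ ≤ C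
  pp : ∀ p ∈ Pin D, ∃ h : ℂ → ℂ, AnalyticAt ℂ h p ∧
    ∀ᶠ x in 𝓝[≠] p, Bin D x = 1 / (x - p) ^ 2 + g p / (x - p) + h x
  lim : ∀ p ∈ Pin D, ∀ l, LabTo D l p → Tendsto (fun m => (D m).sg * (D m).g (l m)) UF (𝓝 (g p))
  b2 : ∀ x ∉ Pin D, iteratedDeriv 2 (Bin D) x =
    ∑' p : Pin D, (6 / (x - (p : ℂ)) ^ 4 + 2 * g p / (x - (p : ℂ)) ^ 3)

/-! ## Algebra of one datum -/

/-- GBA: the `x`-plane. Uses BA1, BA2, BA3 (most of it; new: the polynomials).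
PROOF. `sg = deriv (ψ 0) 0 ≠ 0` (`MaxPN.pn.der`), `zz`, `xx` are inverse affine maps. `F i (F j x) = xx (f^[i] (f^[j] (zz x)))` (`Function.iterate_add_apply`). `f^[j] (b l) = b (l + j)` (`PPS.IsCyc.step`). `F j` is a polynomial (composition of polynomials), `v` too.
`deriv (F j) x = (f^[j])' (zz x)` (chain rule, `xx' = 1/sg`, `zz' = sg`); `(f^[k])'(b l) = ∏_{i<k} fd f (b (l+i)) = PPS.rho f b = exp lam`. `v (p l) = 0` as `F k (p l) = p (l + k) = p l`. `B`: `zz x - b l = sg (x - p l)`. `lam ≠ 0` (`lam0`). -/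
def GBA_stmt : Prop := ∀ (n : ℕ) (ra : ℝ) (Cf : ℝ → ℝ) (D : Dat), D.Good n ra Cf →
  D.sg ≠ 0 ∧ (∀ z, D.zz (D.xx z) = z) ∧ (∀ x, D.xx (D.zz x) = x) ∧
  (∀ i j x, D.F (i + j) x = D.F i (D.F j x)) ∧ (∀ x, D.F 0 x = x) ∧
  (∀ (j : ℕ) (l : ZMod D.k), D.F j (D.p l) = D.p (l + j)) ∧ D.p 0 = 0 ∧
  (∀ j, ∃ Q : Polynomial ℂ, ∀ x, D.F j x = Q.eval x) ∧ (∃ Q : Polynomial ℂ, ∀ x, D.v x = Q.eval x) ∧
  (∀ l, D.v (D.p l) = 0 ∧ deriv D.v (D.p l) = (Complex.exp D.lam - 1) / D.lam) ∧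
  (∀ x, D.B x = ∑ l, (1 / (x - D.p l) ^ 2 + D.sg * D.g l / (x - D.p l))) ∧ D.lam ≠ 0 ∧
  Function.Injective D.p ∧ D.A 0 = 1 ∧
  (∀ i j x, deriv (D.F (i + j)) x = deriv (D.F i) (D.F j x) * deriv (D.F j) x) ∧
  (∀ x, D.F D.k x = x + D.lam * D.v x)

/-- GEX: exactness [paper, (8.2)].
PROOF. Let `φ_j = f^[j]`. Induction on `j`: `g (l+j) = g l/φ_j'(b l) - φ_j''(b l)/φ_j'(b l)²` (chain rule for the second derivative and `PPS.Exact`). `j = k`: `φ_k''(b l) = - ρ (ρ - 1) g l`, `ρ = exp lam`. In the `x`-plane `v'' (p l) = sg φ_k''(b l)/lam`. -/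
def GEX_stmt : Prop := ∀ (n : ℕ) (ra : ℝ) (Cf : ℝ → ℝ) (D : Dat), D.Good n ra Cf → ∀ l,
  deriv (deriv D.v) (D.p l) = -(Complex.exp D.lam * ((Complex.exp D.lam - 1) / D.lam)) * (D.sg * D.g l)

/-- GPO: the polynomials `v² B` and the form `v B`.
PROOF. `v = (x - p l) · w_l` for every `l`. `v² B = ∑_l (w_l² + sg g_l (x - p l) w_l²)` off the poles: polynomial. `v B - κ ∑ 1/(x - p l)` is a rational function without poles (at `p l`: `v/(x-p l)² = w_l/(x-p l)`, `w_l(p l) = v'(p l) = κ`, `(w_l - κ)/(x - p l)` is a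
polynomial; the other term is `sg g_l w_l`): so it is the polynomial `∑_l ((w_l - κ)/(X - p l) + sg g_l w_l)`. All zeros `p l` of `v` are simple (`κ ≠ 0` is a hypothesis). -/
def GPO_stmt : Prop := ∀ (n : ℕ) (ra : ℝ) (Cf : ℝ → ℝ) (D : Dat), D.Good n ra Cf → Complex.exp D.lam ≠ 1 →
  ∃ Fp Vp Qp : Polynomial ℂ, (∀ x, D.v x = Vp.eval x) ∧ Vp ≠ 0 ∧
    (∀ x, (∀ l, x ≠ D.p l) → Fp.eval x = D.v x ^ 2 * D.B x) ∧
    (∀ l, Vp.rootMultiplicity (D.p l) = 1) ∧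
    (∀ x, (∀ l, x ≠ D.p l) → D.v x * D.B x =
      (Complex.exp D.lam - 1) / D.lam * ∑ l, 1 / (x - D.p l) + Qp.eval x)

/-! ## Labels [paper, (6.1), (6.2)] -/

/-- GLB: label sequences.
PROOF. `Pin`: take for every `m` a label nearest to `p` (`Finite`, nonempty). Bounded sequences have `UF`-limits (`V3.TUL`). Uniqueness by `LimOK.sep`. -/
def GLB_stmt : Prop := ∀ (n : ℕ) (ra : ℝ) (Cf : ℝ → ℝ) (D : ℕ → Dat), Seq n ra Cf D → LimOK D →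
  (∀ p ∈ Pin D, ∃ l, LabTo D l p) ∧ (∀ l p, LabTo D l p → p ∈ Pin D) ∧
  (∀ l (C : ℝ), (∀ᶠ m in UF, ‖(D m).p (l m)‖ ≤ C) → ∃ p ∈ Pin D, ‖p‖ ≤ C ∧ LabTo D l p) ∧
  (∀ l l' p, LabTo D l p → LabTo D l' p → ∀ᶠ m in UF, l m = l' m) ∧ LabTo D (fun _ => 0) 0 ∧
  (∃ c₀ > (0 : ℝ), ∀ p ∈ Pin D, ∀ p' ∈ Pin D, p ≠ p' → c₀ ≤ ‖p - p'‖) ∧
  (∀ K : Set ℂ, IsCompact K → K ⊆ (Pin D)ᶜ → ∃ δ > (0 : ℝ), ∀ᶠ m in UF, ∀ x ∈ K, ∀ l, δ ≤ ‖(D m).p l - x‖)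

/-- GGL: the residues converge. Uses GBA, GLB.
PROOF. `g` from `LimOK.gg`. Let `LabTo D l p`, `r > 0` small: `r ≤ c₀/4` (`sep`), `h` holomorphic and the principal part formula valid on `closedBall p r \ {p}`. `(2πi)⁻¹ ∮ Bin = g p` on the circle `‖x - p‖ = r` (integrals of `(x-p)⁻²`, `(x-p)⁻¹`, `h`). For `UF`-a.a. `m` the only pole `p l'` in `closedBall p r`
is `p (l m)` (`sep`, label within `r/2`), so by the formula for `B` (GBA) `(2πi)⁻¹ ∮ B = sg * g (l m)` (`circleIntegral.integral_sub_inv_of_mem_ball`, `circleIntegral.integral_sub_zpow_of_ne`, Cauchy for the outer poles). `B → Bin` uniformly on the circle (`Bconv`). -/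
def GGL_stmt : Prop := ∀ (n : ℕ) (ra : ℝ) (Cf : ℝ → ℝ) (D : ℕ → Dat), Seq n ra Cf D → LimOK D →
  ∃ g : ℂ → ℂ, GG D g

/-- GFK: `F k` is close to the identity.
PROOF. `F k x = x + lam v x` (GBA), `v → vin` uniformly on compact sets (`vconv`), so `‖v‖ ≤ C` on `ball 0 (ρ+1)`, `‖deriv v‖ ≤ C` on `ball 0 ρ` (Cauchy), `lam → 0`. -/
def GFK_stmt : Prop := ∀ (n : ℕ) (ra : ℝ) (Cf : ℝ → ℝ) (D : ℕ → Dat), Seq n ra Cf D → LimOK D →
  ∀ ρ > (0 : ℝ), (∃ C : ℝ, ∀ᶠ m in UF, ∀ x ∈ ball (0 : ℂ) ρ, ‖(D m).v x‖ ≤ C ∧ ‖deriv (D m).v x‖ ≤ C) ∧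
    ∀ ε > (0 : ℝ), ∀ᶠ m in UF, ∀ x ∈ ball (0 : ℂ) ρ,
      ‖(D m).F (D m).k x - x‖ ≤ ε ∧ ‖deriv ((D m).F (D m).k) x - 1‖ ≤ ε

/-- GAL: the limit maps `α_p` [paper, (6.1)].
PROOF. Let `l` be labels of `p`, `j = (l m).val < k`, `F j 0 = p l → p` (GBA). `A j` is bounded (`bA` if `j ≥ 1`, `A 0 = 1`), so `A j → A_p` along `UF` (`V3.TUL`), `‖A_p‖ ≥ 1` (`mini`). `aff` and integration along segments: `F j x → p + A_p x` uniformly on balls, derivatives too.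
If `l m ≠ 0`: `k - j = (-(l m)).val`. Let `x₀ = -p/A_p`; `F j x₀ → 0`, and `F (k-j) (F j x₀) = F k x₀ → x₀` (GFK). Chain rule (GBA): `deriv (F (k-j)) (F j x₀) * deriv (F j) x₀ = deriv (F k) x₀ → 1`; by `aff` `deriv (F (k-j)) (F j x₀) = A (k-j) (1 + o(1))`; so `A (k-j) → 1/A_p` and by
`mini` `‖A_p‖ ≤ 1`; and `F (k-j) 0 = F (k-j) (F j x₀) + O(‖A (k-j)‖ ‖F j x₀‖) → x₀`. If `l m = 0` for `UF`-almost all `m` (`UF_em`): everything is trivial (`p = 0`, `A = 1`). The limit `A_p` does not depend on the labels (GLB: two label sequences of `p` agree eventually), so `A` is a function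
(choose for `p ∈ Pin D`, `A = 1` elsewhere). -/
def GAL_stmt : Prop := ∀ (n : ℕ) (ra : ℝ) (Cf : ℝ → ℝ) (D : ℕ → Dat), Seq n ra Cf D → LimOK D →
  ∃ A : ℂ → ℂ, AL D A

/-- GGR: group law and invariance [paper, (6.2)].
PROOF. Labels `l → p`, `l' → p'`. `F l.val (p l') = p (l' + l)` (GBA) and it tends to `p + A p p'` (`AL.unif`, `p l'` bounded): so `p + A p p' ∈ Pin D` (GLB). The same sequence is `F l'.val (p l)`: commutation. `v`: `com`, `vconv` (`F l.val x → p + A p x` bounded), `AL.tend`.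
`B`: first `x ∈ Reg D`. `y = p + A p x ∉ Pin D` (else `x = -p/A p + (1/A p) y` would be in `Pin D` by the group law and `AL.inv`). `iso` at `x`, `Bconv` near `y`, continuity of `Bin` at `y`: `A p² Bin y = Bin x`. For `Bin x = 0`, `x ∉ Pin D`: `Reg D` is dense in `(Pin D)ᶜ` (identity theorem: `Bin` is not
identically zero on the connected open set `(Pin D)ᶜ`, `V3.PCO`, since it has a pole at `0`), both sides are continuous. -/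
def GGR_stmt : Prop := ∀ (n : ℕ) (ra : ℝ) (Cf : ℝ → ℝ) (D : ℕ → Dat) (A : ℂ → ℂ), Seq n ra Cf D → LimOK D → AL D A →
  (∀ p ∈ Pin D, ∀ p' ∈ Pin D, p + A p * p' ∈ Pin D) ∧
  (∀ p ∈ Pin D, ∀ p' ∈ Pin D, p + A p * p' = p' + A p' * p) ∧
  (∀ p ∈ Pin D, ∀ x, vin D (p + A p * x) = A p * vin D x) ∧
  (∀ p ∈ Pin D, ∀ x ∉ Pin D, A p ^ 2 * Bin D (p + A p * x) = Bin D x)

/-! ## Separation of copies and multiplicities [paper, (6.4)] -/

/-- GSE: if two copies meet, the points differ by some `α_p`, `p ≠ 0`.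
PROOF. `q = j - i`, `1 ≤ q < k`. Apply `F (k - j)` to `F i x = F j x'`: `F (k-q) x = F k x' = x' + o(1)` (GBA, GFK). By `UF_em` one of two cases. Case `‖A (k-q)‖ ≤ 10` (`UF`-a.a. `m`): by `aff` (`F (k-q) 0 = F (k-q) x - O(‖A‖ ρ)`) the sequence `F (k-q) 0 = p (-q)` is bounded:
it has a limit `p ∈ Pin D` (GLB), `p ≠ 0` by `sep` (`-q ≠ 0` in `ZMod k`), `(-(q : ZMod k)).val = k - q`, and `AL.unif` gives `X' = p + A p X`. Case `‖A (k-q)‖ > 10`: by `aff` on `ball 0 (3ρ)` the map `F (k-q)` takes the value `0` at some `x''`, `‖x''‖ ≤ 3ρ`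
(Rouché or contraction: `y ↦ y - (F (k-q) y)/A (k-q)` maps the closed disc of radius `ρ` about `x - F(k-q) x/A(k-q)` into itself and is a contraction; `‖F (k-q) x‖ ≤ ρ + 1`, divided by `10`). So `p q = F q 0 = F q (F (k-q) x'') = F k x''` is bounded, so `p q → p₁ ∈ Pin D`, and with the labels `q` :
`A q → A p₁` of modulus `1`, and `AL.neg`, `AL.tend`: `A (k-q) → A (-p₁/A p₁)` of modulus `1`: contradiction. -/
def GSE_stmt : Prop := ∀ (n : ℕ) (ra : ℝ) (Cf : ℝ → ℝ) (D : ℕ → Dat) (A : ℂ → ℂ), Seq n ra Cf D → LimOK D → AL D A →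
  ∀ (i j : ℕ → ℕ) (x x' : ℕ → ℂ) (ρ : ℝ) (X X' : ℂ),
  (∀ᶠ m in UF, i m < j m ∧ j m - i m < (D m).k ∧ j m ≤ (D m).k ∧ ‖x m‖ < ρ ∧ ‖x' m‖ < ρ ∧
    (D m).F (i m) (x m) = (D m).F (j m) (x' m)) →
  Tendsto x UF (𝓝 X) → Tendsto x' UF (𝓝 X') →
  ∃ p ∈ Pin D, p ≠ 0 ∧ LabTo D (fun m => -((j m - i m : ℕ) : ZMod (D m).k)) p ∧ X' = p + A p * X

/-- GMF: multiplicity in case (F).
PROOF. Suppose not: for `UF`-a.a. `m` there are `z m` and a set of `N + 1` indices (`N = ncard`), all `< k` or all in `[1,k]`; let `J m` be the largest one, the others `j_a m`, `a < N` (enumerate), with points `x_a m`, `x m` in `ball 0 ρ` (take `UF`-limits). GSE for `j_a < J`: poles `p_a ≠ 0` with labels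
`-(J - j_a)`; different labels, so by `sep` different limits: `N` different elements of `Pin D \ {0}`: contradiction to `ncard = N`, `0 ∈ Pin D`. -/
def GMF_stmt : Prop := ∀ (n : ℕ) (ra : ℝ) (Cf : ℝ → ℝ) (D : ℕ → Dat) (A : ℂ → ℂ), Seq n ra Cf D → LimOK D → AL D A →
  (Pin D).Finite → ∀ ρ > (0 : ℝ), ∀ᶠ m in UF, ∀ (z : ℂ) (S : Finset ℕ),
    ((∀ j ∈ S, j < (D m).k) ∨ (∀ j ∈ S, 1 ≤ j ∧ j ≤ (D m).k)) → (∀ j ∈ S, ∃ x ∈ ball (0 : ℂ) ρ, (D m).F j x = z) →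
    S.card ≤ (Pin D).ncard

/-- GM1: sets without coincidences have multiplicity one.
PROOF. Suppose not: `i m < j m` and points `x m, x' m ∈ K`, `F i x = F j x'`, `UF`-a.a. `m`; `UF`-limits `X, X'` (bounded). GSE: `X' = p + A p X`, `p ≠ 0`; but `δ ≤ ‖x' m - (p + A p x m)‖ → 0`. -/
def GM1_stmt : Prop := ∀ (n : ℕ) (ra : ℝ) (Cf : ℝ → ℝ) (D : ℕ → Dat) (A : ℂ → ℂ), Seq n ra Cf D → LimOK D → AL D A →
  ∀ (ρ δ : ℝ) (K : Set ℂ), 0 < δ → K ⊆ ball 0 ρ →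
    (∀ x ∈ K, ∀ x' ∈ K, ∀ p ∈ Pin D, p ≠ 0 → δ ≤ ‖x' - (p + A p * x)‖) →
    ∀ᶠ m in UF, ∀ (z : ℂ) (S : Finset ℕ),
      ((∀ j ∈ S, j < (D m).k) ∨ (∀ j ∈ S, 1 ≤ j ∧ j ≤ (D m).k)) → (∀ j ∈ S, ∃ x ∈ K, (D m).F j x = z) → S.card ≤ 1

/-! ## Zeros [paper, section 7] -/

/-- GHP: no poles in the copies of compact subsets of `(Pin D)ᶜ`.
PROOF. If `F j x = p l` then `F k x = F (k-j) (p l) = p (l + k - j)` (GBA), and `F k x` is within `δ/2` of `x` (GFK): contradiction to GLB (last claim). -/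
def GHP_stmt : Prop := ∀ (n : ℕ) (ra : ℝ) (Cf : ℝ → ℝ) (D : ℕ → Dat), Seq n ra Cf D → LimOK D →
  ∀ K : Set ℂ, IsCompact K → K ⊆ (Pin D)ᶜ →
    ∀ᶠ m in UF, ∀ j ≤ (D m).k, ∀ x ∈ K, ∀ l, (D m).F j x ≠ (D m).p l

/-- GTC: `T j → Bin` uniformly in `j ≤ k` on compact subsets of `(Pin D)ᶜ`, also at the zeros of the limit.
PROOF. Cover `K` by finitely many closed discs `closedBall y r ⊆ (Pin D)ᶜ` with `sphere y r ⊆ Reg D` (zeros of `Bin` are isolated: `Bin` is not identically `0` on the connected set `(Pin D)ᶜ`). On the spheres: `iso`. `T j` is holomorphic near `closedBall y r` for `UF`-a.a. `m` and all `j ≤ k` (GHP for a slightly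
larger disc: `B` is holomorphic off the poles). Maximum principle for `T j - Bin`. -/
def GTC_stmt : Prop := ∀ (n : ℕ) (ra : ℝ) (Cf : ℝ → ℝ) (D : ℕ → Dat), Seq n ra Cf D → LimOK D →
  ∀ K : Set ℂ, IsCompact K → K ⊆ (Pin D)ᶜ → ∀ ε > (0 : ℝ),
    ∀ᶠ m in UF, ∀ j ≤ (D m).k, ∀ x ∈ K, ‖(D m).T j x - Bin D x‖ ≤ ε

/-- GZE: zeros of the limit are limits of zeros of `T j`, with multiplicity, uniformly in `j`.
PROOF. Suppose not: bad `j m`. `V3.THM` with `U = hyperfilter ℕ`, `f m = (D m).T (j m)`, `F = Bin D` on a ball `ball z₀ r ⊆ (Pin D)ᶜ` (holomorphic by GHP, convergence by GTC; `F` is not identically zero). -/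
def GZE_stmt : Prop := ∀ (n : ℕ) (ra : ℝ) (Cf : ℝ → ℝ) (D : ℕ → Dat), Seq n ra Cf D → LimOK D →
  ∀ (z₀ : ℂ) (N : ℕ), z₀ ∉ Pin D → OrdGe (Bin D) z₀ N → ∀ ε > (0 : ℝ), ∀ᶠ m in UF, ∀ j ≤ (D m).k,
    ∃ (S : Finset ℂ) (μ : ℂ → ℕ), (∀ z ∈ S, z ∈ ball z₀ ε ∧ OrdGe ((D m).T j) z (μ z)) ∧ ∑ z ∈ S, μ z = N

/-- GPD: the numerator polynomial.
PROOF. (1) every summand of `Ppoly` has degree `≤ 1 + 2(k-1)`; `Ppoly` at `b i` is `∏ (b i - b j)² ≠ 0` (`MPS.TP`). (2) `T j = (x-z)^μ h`. `F j` is a local biholomorphism at `z`; in the coordinate `y = F j x`, `y₀ = F j z`: `B y = (y - y₀)^μ h₁ y` near `y₀`. So in the `z`-plane `BB`, and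
`Ppoly.eval Z = BB Z * ∏ (Z - b i)²` (`MPS.TP`), vanish to the order `≥ μ` at `Z₀ = zz y₀` (which is no `b l`); for a nonzero polynomial this gives `μ ≤ rootMultiplicity` (write `Ppoly = (X - C Z₀)^r R`, `R(Z₀) ≠ 0`; if `r < μ` divide by `(Z - Z₀)^r` and let `Z → Z₀`). -/
def GPD_stmt : Prop := (∀ (k : ℕ) [NeZero k] (b g : ZMod k → ℂ), Function.Injective b →
    (Ppoly b g).natDegree ≤ 2 * k - 1 ∧ Ppoly b g ≠ 0) ∧
  (∀ (n : ℕ) (ra : ℝ) (Cf : ℝ → ℝ) (D : Dat), D.Good n ra Cf → ∀ (j μ : ℕ) (z : ℂ),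
    (∀ l, D.F j z ≠ D.p l) → deriv (D.F j) z ≠ 0 → OrdGe (D.T j) z μ →
    μ ≤ (Ppoly D.b D.g).rootMultiplicity (D.zz (D.F j z)))

/-- GCN: the count [paper, (7.1)].
PROOF. Choose `ε ≤ δ` such that the balls `ball z ε`, `z ∈ S`, are disjoint, closed balls in `(Pin D)ᶜ`, contained in `ball 0 ρ`. For `UF`-a.a. `m` and every `j < k`: GZE at all `z ∈ S` gives points with multiplicities, total `M₀ = ∑ mm z`; `F j` is injective on `ball 0 ρ` (`LimOK.inj`), derivative `≠ 0`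
(injective: `V3.KO0`), GHP, GPD (2): the images `Z = zz (F j z')` are different zeros of `Ppoly` with `rootMultiplicity ≥ μ`. So `∑_{Z ∈ roots.toFinset, Z ∈ zz (F j (∪ balls))} rootMultiplicity Z ≥ M₀` for every `j < k`. Sum over `j < k`, exchange the sums, every `Z` is counted at most `N` times:
`k M₀ ≤ N ∑_Z rootMultiplicity Z ≤ N (2k-1) < 2 k N`. -/
def GCN_stmt : Prop := ∀ (n : ℕ) (ra : ℝ) (Cf : ℝ → ℝ) (D : ℕ → Dat), Seq n ra Cf D → LimOK D →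
  ∀ (S : Finset ℂ) (mm : ℂ → ℕ) (N : ℕ) (δ : ℝ), 1 ≤ N → 0 < δ → (∀ z ∈ S, z ∉ Pin D ∧ OrdGe (Bin D) z (mm z)) →
    (∀ᶠ m in UF, ∀ (z : ℂ) (J : Finset ℕ), (∀ j ∈ J, j < (D m).k) →
      (∀ j ∈ J, ∃ x ∈ ⋃ y ∈ S, ball y δ, (D m).F j x = z) → J.card ≤ N) →
    ∑ z ∈ S, mm z + 1 ≤ 2 * N

/-! ## Energy [paper, section 8] -/

/-- GEP: the pointwise inequality. (`φ j = f^[j]`, `T_j = φ_j'² B(φ_j)`.)
PROOF. The hypotheses give `φ_j z ≠ b i` (`j ≤ k`; else `φ_k z = b (..)`), `fd f (φ_j z) ≠ 0` (`j < k`, chain rule), so near `z` everything is holomorphic and `T_k ≠ 0`. Let `c` be the local inverse of a primitive of `sqrt T_k` near `z`: `c 0 = z`, `c'(w)² T_k(c w) = 1` near `0` (as in `MPS.NR`).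
Put `G q = φ_(k-q) ∘ c` on a small ball: it is a `PPS.LevSys` with `k` levels (`nat0`: `G 0 = φ_k ∘ c`). `tau G q 0 = T_(k-q)(z)/T_k(z)`, `dens (G q) 0 = (Df + 2‖er‖)(φ_(k-q) z) ‖φ_(k-q)' z‖²/‖T_k z‖`. `PPS.LV` (1) with `Q' = k`, all terms `≥ 0`, and
`1 - τ_k = ∑ (τ_q - τ_(q+1))`: `‖1 - τ_k‖ - re (1 - τ_k) ≤ ∑_{q<k} dens`. Multiply by `‖T_k z‖`; `τ_k = T_0/T_k = B(z)/T_k`. -/
def GEP_stmt : Prop := ∀ (k : ℕ) [NeZero k] (f : Polynomial ℂ) (b g : ZMod k → ℂ), 1 ≤ f.natDegree → PPS.IsCyc f b →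
  ∀ z : ℂ, deriv ((fun y => f.eval y)^[k]) z ≠ 0 → (∀ i, (fun y => f.eval y)^[k] z ≠ b i) →
  BB b g ((fun y => f.eval y)^[k] z) ≠ 0 →
  ‖deriv ((fun y => f.eval y)^[k]) z ^ 2 * BB b g ((fun y => f.eval y)^[k] z) - BB b g z‖ -
    ((deriv ((fun y => f.eval y)^[k]) z ^ 2 * BB b g ((fun y => f.eval y)^[k] z) - BB b g z) *
      (((‖deriv ((fun y => f.eval y)^[k]) z ^ 2 * BB b g ((fun y => f.eval y)^[k] z)‖ : ℝ) : ℂ) /
        (deriv ((fun y => f.eval y)^[k]) z ^ 2 * BB b g ((fun y => f.eval y)^[k] z)))).re ≤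
  ∑ q ∈ Finset.range k, PPS.dens f b g ((fun y => f.eval y)^[k - q]) z

/-- GEI: the energy of one datum on compact subsets of `Reg D`.
PROOF. `R = ra + 3`. `K ⊆ Reg D` compact: for `UF`-a.a. `m` on `K`: `deriv (F k) ≠ 0`, `F k x ≠ p l` (GHP), `T k x ≠ 0` (GTC, `‖Bin‖ ≥ c` on `K`), so GEP applies at `zz x`; in the `x`-plane all densities are multiplied by `‖sg‖²`: `‖lam‖ en x ≤ ‖sg‖² ∑_q dens (φ_(k-q)) (zz x)`. Integrate over `K ⊆ Ω` (change of variables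
`z = zz x`, `dA_z = ‖sg‖² dA_x`): `‖lam‖ ∫_K en ≤ ∑_{q<k} ∫_{zz '' Ω} dens (φ_(k-q))`. `PPS.MA` with `Q = k`, `Ω q = zz '' Ω` (open), `G q = φ_(k-q)` : injective on `zz '' Ω` (`LimOK.inj`), values in `ball 0 R`: `zz x ∈ ball 0 (ra + 1)` (`LimOK.small`), `φ_k (zz x) = zz (F k x) ∈ ball 0 R` (GFK, `small`),
then backwards by `Good.inv`; multiplicity `≤ M` by hypothesis (indices `k - q ∈ [1,k]`). So `≤ M (2π log‖ρ‖ + 3 ∫‖er‖) ≤ M (2π + 3 |Cf R|) ‖lam‖` (`log ‖exp lam‖ = re lam`). Divide by `‖lam‖`. (`en` is continuous on `K`; `0 ≤ dens`; lintegral version first.) -/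
def GEI_stmt : Prop := ∀ (n : ℕ) (ra : ℝ) (Cf : ℝ → ℝ) (D : ℕ → Dat), Seq n ra Cf D → LimOK D →
  ∃ C : ℝ, 0 ≤ C ∧ ∀ (ρ : ℝ) (Ω : Set ℂ) (M : ℕ), IsOpen Ω → Ω ⊆ ball 0 ρ →
    (∀ᶠ m in UF, ∀ (z : ℂ) (J : Finset ℕ), (∀ j ∈ J, 1 ≤ j ∧ j ≤ (D m).k) →
      (∀ j ∈ J, ∃ x ∈ Ω, (D m).F j x = z) → J.card ≤ M) →
    ∀ K : Set ℂ, IsCompact K → K ⊆ Ω → K ⊆ Reg D → ∀ᶠ m in UF, ∫ x in K, (D m).en x ≤ C * M

/-- GQL: convergence of `q` off the poles.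
PROOF. `q = ((F k')² B(F k) - B)/lam`, `F k = id + lam v` (GBA). On a compact neighbourhood `K'` of `K` in `(Pin D)ᶜ`: `B → Bin` uniformly (`Bconv`), so `B`, `B'`, `B''` are bounded and converge (Cauchy); `v, v'` bounded and convergent. `B(x + lam v) = B x + lam v B' x + O(lam²)`,
`(1 + lam v')² = 1 + 2 lam v' + O(lam²)`. -/
def GQL_stmt : Prop := ∀ (n : ℕ) (ra : ℝ) (Cf : ℝ → ℝ) (D : ℕ → Dat), Seq n ra Cf D → LimOK D →
  ∀ K : Set ℂ, IsCompact K → K ⊆ (Pin D)ᶜ → ∀ ε > (0 : ℝ), ∀ᶠ m in UF, ∀ x ∈ K,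
    ‖(D m).q x - (vin D x * deriv (Bin D) x + 2 * deriv (vin D) x * Bin D x)‖ ≤ ε

/-- GQE: `q` is entire [paper, (8.2)].
PROOF. `vin'' (p) = - g p`: `v'' (p l) → vin''(p)` (`vconv`, `p l → p`), GEX, `(exp lam - 1)/lam → 1`, `GG.lim`. Near `p`, with `s = x - p`, `vin = s - (g/2) s² + s³ v₁`, `Bin = 1/s² + g/s + h`: `vin Bin' = -2/s² + (g - g)/s + ..` and `2 vin' Bin = 2/s² + (2g - 2g)/s + ..`: the sum is analytic at `p`. `V3.REMO`. -/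
def GQE_stmt : Prop := ∀ (n : ℕ) (ra : ℝ) (Cf : ℝ → ℝ) (D : ℕ → Dat) (g : ℂ → ℂ), Seq n ra Cf D → LimOK D → GG D g →
  ∃ q : ℂ → ℂ, Differentiable ℂ q ∧
    ∀ x ∉ Pin D, q x = vin D x * deriv (Bin D) x + 2 * deriv (vin D) x * Bin D x

/-- GTH: the direction `θ = lim lam/|lam|`. PROOF. `V3.TUL`; modulus `1`. -/
def GTH_stmt : Prop := ∀ (n : ℕ) (ra : ℝ) (Cf : ℝ → ℝ) (D : ℕ → Dat), Seq n ra Cf D →
  ∃ θ : ℂ, ‖θ‖ = 1 ∧ Tendsto (fun m => (D m).lam / ((‖(D m).lam‖ : ℝ) : ℂ)) UF (𝓝 θ)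

/-- GEN: energy of the limit.
PROOF. First `K ⊆ Ω ∩ Reg D` compact: on `K` `q_m → q`, `T k → Bin` (GTC), `‖Bin‖ ≥ c`, `θ_m → θ`: `en → En θ Bin q` uniformly; so `∫_K En ≤ C M` by GEI (finite measure of `K`). `Ω ∩ Reg D` is open, `Ω \ Reg D` is countable (null), `En ≥ 0` bounded on `Ω` (`‖En‖ ≤ 2‖q‖`) and integrable: exhaust `Ω ∩ Reg D` by compact
sets (`IsOpen.measure..`/`exists compact exhaustion`, monotone convergence, or inner regularity plus absolute continuity of the integral). -/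
def GEN_stmt : Prop := ∀ (n : ℕ) (ra : ℝ) (Cf : ℝ → ℝ) (D : ℕ → Dat) (q : ℂ → ℂ) (θ : ℂ), Seq n ra Cf D → LimOK D →
  Differentiable ℂ q → (∀ x ∉ Pin D, q x = vin D x * deriv (Bin D) x + 2 * deriv (vin D) x * Bin D x) → ‖θ‖ = 1 →
  Tendsto (fun m => (D m).lam / ((‖(D m).lam‖ : ℝ) : ℂ)) UF (𝓝 θ) →
  ∃ C : ℝ, 0 ≤ C ∧ ∀ (ρ : ℝ) (Ω : Set ℂ) (M : ℕ), IsOpen Ω → Ω ⊆ ball 0 ρ →
    (∀ᶠ m in UF, ∀ (z : ℂ) (J : Finset ℕ), (∀ j ∈ J, 1 ≤ j ∧ j ≤ (D m).k) →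
      (∀ j ∈ J, ∃ x ∈ Ω, (D m).F j x = z) → J.card ≤ M) →
    ∫ x in Ω, En θ (Bin D) q x ≤ C * M

/-! ## The limit object -/

/-- GML: the limit object.
PROOF. `A`: GAL; `g`: hypothesis `GG`; `q`: GQE; `θ`: GTH. Fields of `V3.Lim`: `zero`, `sep` (GLB), `hg`, `Bp`, `B2` (`GG`; `PPart` gives `AnalyticAt`), `Bd`, `vd`, `v0` (`LimOK`), `qd`, `qB`, `A1`, `inv` (`AL`), `grp`, `com`, `vA`, `BA` (GGR).
`cF`: GMF and GCN with `N = ncard ≥ 1` (`0 ∈ Pin D`). `cZ`: if some `A p ≠ 1` then `com` bounds `P`: `‖p'‖ ≤ 2‖p‖/‖A p - 1‖`, but `ZL t` is unbounded; so all `A p = 1`; GM1 for `K = ⋃ ball z δ`, `z ∈ S` (`δ` small: `‖z' - z - n t‖ ≥ 3δ` for `z, z' ∈ S`, `n ≠ 0`), GCN with `N = 1`.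
`eF`: GEN with `Ω = ball 0 R`, `M = ncard` (GMF). `eZ`: again all `A p = 1`; `Ω = {t z : ε < re z < 1 - ε, |im z| < Y}`, `M = 1` (GM1 with `δ = 2 ε ‖t‖`); `∫_{z} En (t z) = ‖t‖⁻² ∫_Ω En`. -/
def GML_stmt : Prop := ∀ (n : ℕ) (ra : ℝ) (Cf : ℝ → ℝ) (D : ℕ → Dat) (g : ℂ → ℂ), Seq n ra Cf D → LimOK D → GG D g →
  ∃ (A q : ℂ → ℂ) (θ : ℂ), AL D A ∧ Lim (Pin D) A g (Bin D) (vin D) q θ

/-! ## Contradiction in case (F) [paper, (9.3)] -/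

/-- GFM: `B = 1/x²` contradicts the maximality of `ψ 0`.
PROOF. For `UF`-a.a. `m` the function `x² B(x)` is holomorphic on `ball 0 9` after removing the singularity at `0` (value `1`; the other poles have `‖p l‖ ≥ 9` by GLB since `Pin D = {0}`), converges to `1` uniformly on `sphere 0 8` (`Bconv`), hence on `closedBall 0 8`: `‖x² B - 1‖ ≤ ε`. `s` = its square root near `1`,
`H = (s - 1)/x` holomorphic on `ball 0 8`, `‖H‖ ≤ ε` there (maximum principle), `K₀` its primitive, `u(x) = x exp (K₀ x)`: `u'/u = s/x`, `(u'/u)² = B`, `u 0 = 0`, `u' 0 = 1`. `u` is injective on `ball 0 8` and its image contains `ball 0 2` (`‖u' - 1‖ ≤ 1/2`). `ψ' = zz ∘ u⁻¹` is a `PN`-map for `b 0` on `ball 0 2`,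
`deriv ψ' 0 = sg = deriv (ψ 0) 0`: contradiction to `MaxPN.mx`. -/
def GFM_stmt : Prop := ∀ (n : ℕ) (ra : ℝ) (Cf : ℝ → ℝ) (D : ℕ → Dat), Seq n ra Cf D → LimOK D →
  Pin D = {0} → (∀ x : ℂ, x ≠ 0 → Bin D x = 1 / x ^ 2) → False

/-! ## Contradiction in case (Z) [paper, (10.6)] -/

/-- GZP: the integrands on the copies.
PROOF. `vin ≠ 0`, `Bin ≠ 0` on `K` (`v² B = 1`), `K ⊆ Reg D`. `com` and `iso` (on a compact neighbourhood `K'` of `K` in `Reg D`; derivatives by Cauchy's estimates on `K`): put `a = A j`. `F j' = a (1 + o(1))` (`aff`), `v(F j x) = a (vin x + o(1))`, `(F j')² B(F j x) = Bin x + o(1)`; so `v(F j) B(F j) F j' = vin Bin + o(1)`,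
`v(F j)² B(F j) = 1 + o(1)`. The derivative of `x ↦ v(F j x)/a` is `v'(F j x) F j'(x)/a → vin' x` (locally uniform convergence of holomorphic functions), so `v'(F j x) F j'(x)/v(F j x) → vin'/vin`. All uniformly in `j ≤ k` (or by choosing bad `j m`). -/
def GZP_stmt : Prop := ∀ (n : ℕ) (ra : ℝ) (Cf : ℝ → ℝ) (D : ℕ → Dat), Seq n ra Cf D → LimOK D →
  (∀ x ∉ Pin D, vin D x ^ 2 * Bin D x = 1) → ∀ K : Set ℂ, IsCompact K → K ⊆ (Pin D)ᶜ → ∀ ε > (0 : ℝ),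
    ∀ᶠ m in UF, ∀ j ≤ (D m).k, ∀ x ∈ K, (∀ l, (D m).F j x ≠ (D m).p l) ∧ (D m).v ((D m).F j x) ≠ 0 ∧
      ‖(D m).v ((D m).F j x) ^ 2 * (D m).B ((D m).F j x) - 1‖ ≤ ε ∧
      ‖(D m).v ((D m).F j x) * (D m).B ((D m).F j x) * deriv ((D m).F j) x - 1 / vin D x‖ ≤ ε ∧
      ‖deriv (D m).v ((D m).F j x) / (D m).v ((D m).F j x) * deriv ((D m).F j) x - deriv (vin D) x / vin D x‖ ≤ ε

/-- GZX: the two explicit integrals.
PROOF. `x = i Y t + s t`, `y = exp(2πi x/t) = e^{-2πY} e^{2πis}`, `|y| < 1`. `1/v = (1/c') y/(y-1) = -(1/c') ∑_{n≥1} y^n` and `v'/v = (2πi/t)/(y-1) = -(2πi/t) ∑_{n≥0} y^n` (uniformly convergent); `∫_0^1 y^n ds = 0` for `n ≥ 1`, `1` for `n = 0`. -/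
def GZX_stmt : Prop := ∀ (v : ℂ → ℂ) (t c' : ℂ) (Y : ℝ), t ≠ 0 → c' ≠ 0 → 0 < Y →
  (∀ x, v x = c' * (1 - Complex.exp (-(2 * Real.pi * I * x / t)))) →
  (∀ s : ℝ, v (t * (Y * I) + s * t) ≠ 0) ∧
  ∫ s in (0 : ℝ)..1, 1 / v (t * (Y * I) + s * t) * t = 0 ∧
  ∫ s in (0 : ℝ)..1, deriv v (t * (Y * I) + s * t) / v (t * (Y * I) + s * t) * t = -(2 * Real.pi * I)

/-- GZC: the closed chain [paper, (10.6)].
PROOF. (for one datum) `x₀, l` given, `x₁ = F l.val x₀`, `q j = (j * l.val) % k`, so `q 0 = q k = 0`, `q (j+1) = q j + l.val` or `q j + l.val - k`. Chain with `2k` pieces: `γ (2j) s = F (q j) (x₀ + s (x₁ - x₀))`; `γ (2j+1) s = F (q (j+1)) (x₀)` constant if `q j + l.val < k`, and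
`= F (q (j+1)) (F k x₀ + s (x₀ - F k x₀))` otherwise (`F (q j) x₁ = F (q j + l.val) x₀ = F (q(j+1)) (F k x₀)`, GBA). `V3.Chain (2k) γ` (polynomial maps are smooth). -/
def GZC_stmt : Prop := ∀ (n : ℕ) (ra : ℝ) (Cf : ℝ → ℝ) (D : Dat), D.Good n ra Cf → ∀ (x₀ : ℂ) (l : ZMod D.k),
  ∃ (γ : ℕ → ℝ → ℂ) (q : ℕ → ℕ), Chain (2 * D.k) γ ∧ (∀ j, q j < D.k) ∧
    (∀ j < D.k, ∀ s : ℝ, γ (2 * j) s = D.F (q j) (x₀ + s * (D.F l.val x₀ - x₀))) ∧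
    (∀ j < D.k, (∀ s : ℝ, γ (2 * j + 1) s = D.F (q (j + 1)) x₀) ∨
      (∀ s : ℝ, γ (2 * j + 1) s = D.F (q (j + 1)) (D.F D.k x₀ + s * (x₀ - D.F D.k x₀))))

/-- GZF: contradiction in case (Z).
PROOF. `x₀ = i t` (`Y = 1`), `l` labels of the pole `t ∈ Pin D` (GLB), `A t = 1`: `x₁ = F l.val x₀ → x₀ + t` (`AL.unif`). Chain of GZC; all points `x₀ + s (x₁ - x₀)`, `F k x₀ + s (x₀ - F k x₀)` lie in a compact set `K ⊆ (Pin D)ᶜ` (a neighbourhood of the segment `[x₀, x₀+t]`, on which `Im (x/t)` is close to `1`) for `UF`-a.a. `m`.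
GZP on `K`: `‖v²B - 1‖ ≤ 1/2`, `v ≠ 0`, no poles on the chain. GPO, `V3.CHI` (`Z = image of p`, `κ = (exp lam - 1)/lam`): `chi (vB) = κ chi (v'/v)`. On the piece `2j`: `γ' = F (q j)'(..) (x₁ - x₀)`, so by GZP `∫ vB dγ = ∫_0^1 (1/vin)(x₀+s t) t ds + o(1) = o(1)` and `∫ v'/v dγ = -2πi + o(1)`
(GZX, uniformly in `j`; uniform continuity of `1/vin`, `vin'/vin` on `K`). On the pieces `2j+1`: both integrals are `0` or `O(‖x₀ - F k x₀‖) = o(1)`. Sum over `j < k`: `‖chi (vB)‖ ≤ k/10`, `‖chi (v'/v) + 2πi k‖ ≤ k/10`, `‖κ - 1‖ ≤ 1/10`: contradiction, as `k ≥ 1`. -/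
def GZF_stmt : Prop := ∀ (n : ℕ) (ra : ℝ) (Cf : ℝ → ℝ) (D : ℕ → Dat) (A : ℂ → ℂ) (t c' : ℂ), Seq n ra Cf D → LimOK D → AL D A →
  t ≠ 0 → Pin D = ZL t → (∀ p ∈ Pin D, A p = 1) → c' ≠ 0 →
  (∀ x, vin D x = c' * (1 - Complex.exp (-(2 * Real.pi * I * x / t)))) →
  (∀ x ∉ Pin D, vin D x ^ 2 * Bin D x = 1) → False

/-- GEND: the final contradiction.
PROOF. GGL, GML, `V3.ENDG`, GFM, GZF. -/
def GEND_stmt : Prop := END_stmt

end V3S
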