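import Pool.Agent.helper54.V3.SpecG

set_option autoImplicit false

open Complex Metric Set Filter Topology MeasureTheory MPS V3

noncomputable section

namespace V3S

theorem GEX_it (f : Polynomial ℂ) (j : ℕ) :
    ∃ Q : Polynomial ℂ, ∀ z, (fun w => f.eval w)^[j] z = Q.eval z := by
  induction j with
  | zero => exact ⟨Polynomial.X, fun z => by simp⟩
  | succ j ih =>
    obtain ⟨Q, hQ⟩ := ih
    refine ⟨f.comp Q, fun z => ?_⟩
    rw [Function.iterate_succ_apply', Polynomial.eval_comp, hQ]

theorem GEX_cyc {k : ℕ} [NeZero k] (f : Polynomial ℂ) (b : ZMod k → ℂ) (hc : PPS.IsCyc f b) (j : ℕ)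
    (l : ZMod k) : (fun w => f.eval w)^[j] (b l) = b (l + j) := by
  induction j with
  | zero => simp
  | succ j ih =>
    rw [Function.iterate_succ_apply', ih]
    show f.eval (b (l + j)) = _
    rw [hc.step]
    push_cast
    congr 1
    ring

theorem GEX_main {k : ℕ} [NeZero k] (f : Polynomial ℂ) (b g : ZMod k → ℂ) (hc : PPS.IsCyc f b)
    (he : PPS.Exact f b g) (l : ZMod k) (j : ℕ) :
    deriv ((fun w => f.eval w)^[j]) (b l) ≠ 0 ∧
    g (l + j) = g l / deriv ((fun w => f.eval w)^[j]) (b l) -
      deriv (deriv ((fun w => f.eval w)^[j])) (b l) / deriv ((fun w => f.eval w)^[j]) (b l) ^ 2 := by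
  induction j with
  | zero =>
    have h0 : ((fun w => f.eval w)^[0]) = fun z => z := by funext z; simp
    rw [h0]
    have h1 : deriv (fun z : ℂ => z) = fun _ => (1 : ℂ) := by
      funext z; exact deriv_id z
    rw [h1]
    simp
  | succ j ih =>
    obtain ⟨Q, hQ⟩ := GEX_it f j
    have hF : ((fun w => f.eval w)^[j]) = fun z => Q.eval z := funext hQ
    have hF1 : ((fun w => f.eval w)^[j + 1]) = fun z => (f.comp Q).eval z := by
      funext z
      rw [Function.iterate_succ_apply', hQ, Polynomial.eval_comp]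
    have hd1 : ∀ P : Polynomial ℂ, deriv (fun z => P.eval z) = fun z => P.derivative.eval z := by
      intro P; funext z; exact Polynomial.deriv P
    rw [hF] at ih
    rw [hF1]
    simp only [hd1] at ih ⊢
    obtain ⟨ha, hg⟩ := ih
    have hQb : Q.eval (b l) = b (l + j) := by
      rw [← hQ]; exact GEX_cyc f b hc j l
    have hA : (f.comp Q).derivative.eval (b l) = PPS.fd f (b (l + j)) * Q.derivative.eval (b l) := by
      rw [Polynomial.derivative_comp, Polynomial.eval_mul, Polynomial.eval_comp, hQb]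
      unfold PPS.fd
      ring
    have hC : (f.comp Q).derivative.derivative.eval (b l) =
        PPS.fdd f (b (l + j)) * Q.derivative.eval (b l) ^ 2 +
          PPS.fd f (b (l + j)) * Q.derivative.derivative.eval (b l) := by
      rw [Polynomial.derivative_comp, Polynomial.derivative_mul, Polynomial.derivative_comp,
        Polynomial.eval_add, Polynomial.eval_mul, Polynomial.eval_mul, Polynomial.eval_mul,
        Polynomial.eval_comp, Polynomial.eval_comp, hQb]
      unfold PPS.fd PPS.fdd
      ring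
    have hfd : PPS.fd f (b (l + j)) ≠ 0 := hc.ne0 _
    refine ⟨by rw [hA]; exact mul_ne_zero hfd ha, ?_⟩
    have e1 : l + ((j + 1 : ℕ) : ZMod k) = (l + j) + 1 := by push_cast; ring
    rw [e1, he (l + j), hg, hA, hC]
    field_simp
    ring

theorem GEX (hBA1 : BA1_stmt) : GEX_stmt := by
  intro n ra Cf D hD l
  obtain ⟨hsg, hlam, hxz, hzx, h0, hadd, hdiff, hch, hder, hzF, hFp, hp0, hF0, hinj, hv, hmul⟩ :=
    hBA1 n ra Cf D hD
  have hzp : D.zz (D.p l) = D.b l := by
    unfold Dat.p; exact hzx _
  obtain ⟨Q, hQ⟩ := GEX_it D.f D.k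
  have hF : ((fun w => D.f.eval w)^[D.k]) = fun z => Q.eval z := funext hQ
  have hd1 : ∀ P : Polynomial ℂ, deriv (fun z => P.eval z) = fun z => P.derivative.eval z := by
    intro P; funext z; exact Polynomial.deriv P
  obtain ⟨ha, hg⟩ := GEX_main D.f D.b D.g hD.cyc hD.ex l D.k
  have hak : deriv ((fun w => D.f.eval w)^[D.k]) (D.b l) = Complex.exp D.lam := by
    rw [← hmul l, hder, hzp]
  have hlk : l + ((D.k : ℕ) : ZMod D.k) = l := by simp
  rw [hlk, hak] at hg
  have hE : Complex.exp D.lam ≠ 0 := Complex.exp_ne_zero _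
  have hc : deriv (deriv ((fun w => D.f.eval w)^[D.k])) (D.b l) =
      -(Complex.exp D.lam * (Complex.exp D.lam - 1)) * D.g l := by
    have h2 := hg
    field_simp at h2
    linear_combination h2
  -- derivatives of `v`
  have hdv : deriv D.v = fun x => (deriv (D.F D.k) x - 1) / D.lam := by
    funext x
    have e : D.v = fun x => (D.F D.k x - x) / D.lam := rfl
    rw [e]
    exact ((((hdiff D.k) x).hasDerivAt.sub (hasDerivAt_id x)).div_const D.lam).deriv
  have hdF : deriv (D.F D.k) = fun x => Q.derivative.eval (D.b 0 + D.sg * x) := by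
    funext x
    rw [hder D.k x, hF, hd1]
    rfl
  rw [hdv, hdF]
  have hdd : HasDerivAt (fun x => (Q.derivative.eval (D.b 0 + D.sg * x) - 1) / D.lam)
      (Q.derivative.derivative.eval (D.b 0 + D.sg * D.p l) * D.sg / D.lam) (D.p l) := by
    have h1 : HasDerivAt (fun x : ℂ => D.b 0 + D.sg * x) D.sg (D.p l) := by
      simpa using ((hasDerivAt_id (D.p l)).const_mul D.sg).const_add (D.b 0)
    have h2 := (Polynomial.hasDerivAt Q.derivative (D.b 0 + D.sg * D.p l))
    exact ((h2.comp (D.p l) h1).sub_const 1).div_const D.lam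
  rw [hdd.deriv]
  rw [hF] at hc
  simp only [hd1] at hc
  have hz2 : D.b 0 + D.sg * D.p l = D.b l := hzp
  rw [hz2, hc]
  field_simp

end V3S
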