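import Pool.Agent.helper36.V3.SpecW

set_option autoImplicit false

open Complex Metric Set Filter Topology MeasureTheory MPS

noncomputable section

namespace V3W

theorem REB_BB {k : ℕ} [NeZero k] (b g : ZMod k → ℂ) (i₀ : ZMod k) :
    BB (fun j => b (i₀ + j)) (fun j => g (i₀ + j)) = BB b g := by
  funext z
  unfold BB
  exact Fintype.sum_equiv (Equiv.addLeft i₀) _ _ (fun j => rfl)

theorem REB_PN {k : ℕ} [NeZero k] (b g : ZMod k → ℂ) (i₀ i : ZMod k) (ψ : ℂ → ℂ) (r : ℝ) :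
    PN (fun j => b (i₀ + j)) (fun j => g (i₀ + j)) i ψ r ↔ PN b g (i₀ + i) ψ r := by
  constructor
  · intro h
    refine ⟨h.pos, h.diff, h.val, h.der, fun u hu hu0 j => ?_, fun u hu hu0 => ?_⟩
    · have := h.av u hu hu0 (j - i₀)
      simpa using this
    · have := h.eq u hu hu0
      rwa [REB_BB] at this
  · intro h
    refine ⟨h.pos, h.diff, h.val, h.der, fun u hu hu0 j => h.av u hu hu0 (i₀ + j), fun u hu hu0 => ?_⟩
    rw [REB_BB]
    exact h.eq u hu hu0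

theorem REB (hNM : MPS.NM_stmt) : REB_stmt := by
  intro n k _ f b g lam ra Cf hn hdeg hk hcyc hrho hlam hex hra hb hcrit hinv her
  have h1 : ∀ i : ZMod k, ∃ ψ : ℂ → ℂ, MaxPN b g i ψ := fun i => hNM k b g i hk hcyc.inj
  choose ψ hψ using h1
  obtain ⟨i₀, -, hi₀⟩ := Finset.exists_min_image (Finset.univ : Finset (ZMod k))
    (fun i => ‖deriv (ψ i) 0‖) ⟨0, Finset.mem_univ _⟩
  refine ⟨⟨k, inferInstance, f, fun j => b (i₀ + j), fun j => g (i₀ + j), fun j => ψ (i₀ + j), lam⟩, ?_, rfl⟩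
  refine ⟨hn, hdeg, hk, ⟨?_, ?_, ?_⟩, ?_, hlam, ?_, ?_, ?_, hra, ?_, hcrit, hinv, ?_⟩
  · intro x y hxy
    exact add_left_cancel (hcyc.inj hxy)
  · intro i
    show f.eval (b (i₀ + i)) = b (i₀ + (i + 1))
    rw [hcyc.step, add_assoc]
  · intro i
    exact hcyc.ne0 _
  · show PPS.rho f (fun j => b (i₀ + j)) = Complex.exp lam
    rw [← hrho]
    unfold PPS.rho
    exact Fintype.prod_equiv (Equiv.addLeft i₀) _ _ (fun j => rfl)
  · intro i
    show g (i₀ + (i + 1)) = g (i₀ + i) / PPS.fd f (b (i₀ + i)) - PPS.fdd f (b (i₀ + i)) / PPS.fd f (b (i₀ + i)) ^ 2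
    rw [← add_assoc]
    exact hex _
  · intro i
    refine ⟨(REB_PN b g i₀ i _ 1).2 (hψ (i₀ + i)).pn, fun r hr ψ' hψ' => ?_⟩
    exact (hψ (i₀ + i)).mx r hr ψ' ((REB_PN b g i₀ i _ r).1 hψ')
  · intro i
    show ‖deriv (ψ (i₀ + 0)) 0‖ ≤ ‖deriv (ψ (i₀ + i)) 0‖
    rw [add_zero]
    exact hi₀ _ (Finset.mem_univ _)
  · intro j
    exact hb _
  · intro R hR
    show ∫ z in ball (0 : ℂ) R, ‖PPS.er f (fun j => b (i₀ + j)) (fun j => g (i₀ + j)) z‖ ≤ Cf R * ‖lam‖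
    have e : PPS.er f (fun j => b (i₀ + j)) (fun j => g (i₀ + j)) = PPS.er f b g := by
      funext z
      unfold PPS.er
      rw [REB_BB]
    rw [e]
    exact her R hR

end V3W
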