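import Pool.Agent.helper1.V3.GZP
import Pool.Agent.helper1.V3.REG
import Pool.Agent.helper1.V3.VPD
import Pool.Agent.helper11.V3.CHT
import Pool.Agent.helper11.V3.STP
import Pool.Agent.helper12.V3.LPI
import Pool.Agent.helper12.V3.PEN
import Pool.Agent.helper13.V3.AFF
import Pool.Agent.helper13.V3.AFF2
import Pool.Agent.helper13.V3.GM1
import Pool.Agent.helper13.V3.GQL
import Pool.Agent.helper13.V3.GTR
import Pool.Agent.helper13.V3.LOKA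
import Pool.Agent.helper13.V3.NORM
import Pool.Agent.helper13.V3.NSU
import Pool.Agent.helper13.V3.PCO
import Pool.Agent.helper13.V3.PHS
import Pool.Agent.helper13.V3.TDE
import Pool.Agent.helper13.V3.VLO
import Pool.Agent.helper16.V3.CHF
import Pool.Agent.helper16.V3.ENB
import Pool.Agent.helper16.V3.S3G
import Pool.Agent.helper18.V3.GGL
import Pool.Agent.helper18.V3.MNI
import Pool.Agent.helper18.V3.NPK
import Pool.Agent.helper19.V3.GZE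
import Pool.Agent.helper19.V3.ISO
import Pool.Agent.helper19.V3.UER
import Pool.Agent.helper21.V3.CNF
import Pool.Agent.helper23.V3.FEND
import Pool.Agent.helper23.V3.GBD
import Pool.Agent.helper23.V3.GGR
import Pool.Agent.helper23.V3.KO2
import Pool.Agent.helper24.V3.GTC
import Pool.Agent.helper24.V3.PR0
import Pool.Agent.helper24.V3.THQ
import Pool.Agent.helper25.V3.GCN
import Pool.Agent.helper27.V3.GMF
import Pool.Agent.helper27.V3.ISL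
import Pool.Agent.helper3.V3.ENDG
import Pool.Agent.helper3.V3.FV
import Pool.Agent.helper3.V3.GSE
import Pool.Agent.helper3.V3.PSG
import Pool.Agent.helper3.V3.SEQ3
import Pool.Agent.helper30.V3.FX
import Pool.Agent.helper31.V3.GEL
import Pool.Agent.helper32.V3.CHI
import Pool.Agent.helper33.V3.PH3
import Pool.Agent.helper33.V3.ST2
import Pool.Agent.helper34.V3.THN
import Pool.Agent.helper36.MP.All
import Pool.Agent.helper36.PP.All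
import Pool.Agent.helper36.V3.V3P
import Pool.Agent.helper38.V3.FAQ
import Pool.Agent.helper38.V3.GTH
import Pool.Agent.helper38.V3.KO0
import Pool.Agent.helper4.V3.GLA
import Pool.Agent.helper4.V3.VB1
import Pool.Agent.helper40.V3.ST1
import Pool.Agent.helper43.V3.BA4
import Pool.Agent.helper43.V3.PRAT
import Pool.Agent.helper44.V3.NFA
import Pool.Agent.helper45.V3.GZF
import Pool.Agent.helper46.V3.FPH
import Pool.Agent.helper46.V3.GQE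
import Pool.Agent.helper49.V3.CMM
import Pool.Agent.helper50.V3.FPL
import Pool.Agent.helper50.V3.TBX
import Pool.Agent.helper51.V3.FLQ
import Pool.Agent.helper51.V3.GBA
import Pool.Agent.helper51.V3.START
import Pool.Agent.helper52.V3.FLE
import Pool.Agent.helper52.V3.GPO
import Pool.Agent.helper52.V3.SGN
import Pool.Agent.helper53.V3.FPOL
import Pool.Agent.helper53.V3.FQ0
import Pool.Agent.helper53.V3.FRAT
import Pool.Agent.helper53.V3.NB2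
import Pool.Agent.helper53.V3.NBP
import Pool.Agent.helper53.V3.NMO
import Pool.Agent.helper53.V3.VBD
import Pool.Agent.helper54.V3.GEX
import Pool.Agent.helper54.V3.REB
import Pool.Agent.helper55.V3.BA2
import Pool.Agent.helper55.V3.CHP
import Pool.Agent.helper57.V3.ALC
import Pool.Agent.helper57.V3.GPD
import Pool.Agent.helper57.V3.TMO
import Pool.Agent.helper58.V3.GEI
import Pool.Agent.helper58.V3.GFM
import Pool.Agent.helper58.V3.NIX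
import Pool.Agent.helper58.V3.PDE
import Pool.Agent.helper58.V3.PQ0
import Pool.Agent.helper58.V3.STA
import Pool.Agent.helper59.V3.GSF
import Pool.Agent.helper59.V3.GZC
import Pool.Agent.helper59.V3.PPE
import Pool.Agent.helper59.V3.TMX
import Pool.Agent.helper60.V3.NBD
import Pool.Agent.helper60.V3.NCH
import Pool.Agent.helper61.V3.PSL
import Pool.Agent.helper62.V3.BA3
import Pool.Agent.helper62.V3.CS
import Pool.Agent.helper62.V3.GRO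
import Pool.Agent.helper62.V3.MU3
import Pool.Agent.helper62.V3.S3L
import Pool.Agent.helper62.V3.SQC
import Pool.Agent.helper62.V3.THV
import Pool.Agent.helper62.V3.VLM
import Pool.Agent.helper63.V3.INJ
import Pool.Agent.helper63.V3.LGN
import Pool.Agent.helper66.V3.REC
import Pool.Agent.helper67.V3.BA1
import Pool.Agent.helper69.V3.EV3
import Pool.Agent.helper70.V3.GFK
import Pool.Agent.helper70.V3.KO3
import Pool.Agent.helper70.V3.KRD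
import Pool.Agent.helper70.V3.PFO
import Pool.Agent.helper72.V3.GAL
import Pool.Agent.helper72.V3.LMB
import Pool.Agent.helper73.V3.PPH
import Pool.Agent.helper73.V3.TUL
import Pool.Agent.helper74.MQ.All
import Pool.Agent.helper74.V3.GML
import Pool.Agent.helper75.V3.GEN
import Pool.Agent.helper75.V3.PCN
import Pool.Agent.helper75.V3.SEP
import Pool.Agent.helper77.V3.CSH
import Pool.Agent.helper77.V3.REACH3
import Pool.Agent.helper8.V3.CAF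
import Pool.Agent.helper8.V3.GEP
import Pool.Agent.helper8.V3.GZX
import Pool.Agent.helper87.V3.SUD
import Pool.Agent.helper89.V3.FW
import Pool.Agent.helper89.V3.KO1
import Pool.Agent.helper89.V3.PIN
import Pool.Agent.helper91.V3.CSZ
import Pool.Agent.helper91.V3.PT3
import Pool.Agent.helper91.V3.THU
import Pool.Agent.helper92.V3.FCI
import Pool.Agent.helper92.V3.PTS
import Pool.Agent.helper93.V3.EXB
import Pool.Agent.helper93.V3.FDQ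
import Pool.Agent.helper93.V3.GLB
import Pool.Agent.helper95.V3.FLAG
import Pool.Agent.helper95.V3.FSUM
import Pool.Agent.helper95.V3.REMO
import Pool.Agent.helper97.V3.GHP
import Pool.Agent.helper97.V3.STEP3
import Pool.Agent.helper97.V3.THM
import Pool.Agent.helper98.V3.CRB
import Pool.Agent.helper98.V3.GEND
import Pool.Agent.helper98.V3.NLP
import Pool.Agent.helper98.V3.S3A

/-!
# Project v3: assembly of all modules (written by a script from the signatures; helper54)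
-/

set_option autoImplicit false

namespace V3A

theorem AFF2_v : V3.AFF2_stmt := V3.AFF2
theorem BA1_v : V3S.BA1_stmt := V3S.BA1
theorem BA4_v : V3S.BA4_stmt := V3S.BA4 MPS.NLB_ok
theorem CAF_v : V3S.CAF_stmt := V3S.CAF
theorem CHP_v : V3.CHP_stmt := V3.CHP
theorem CRB_v : V3W.CRB_stmt := V3W.CRB
theorem FCI_v : V3.FCI_stmt := V3.FCI
theorem FLAG_v : V3.FLAG_stmt := V3.FLAG
theorem FLE_v : V3W.FLE_stmt := V3W.FLE PPS.PRB_p PPS.JBD_p PPS.RAD_p PPS.CTA_p PPS.MAT_p PPS.ERV_p PPS.INQ2_p PPS.ROW_p PPS.RADX_p PPS.KER_p MPS.MI_ok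
theorem FPH_v : V3.FPH_stmt := V3.FPH
theorem FPL_v : V3.FPL_stmt := V3.FPL
theorem FPOL_v : V3.FPOL_stmt := V3.FPOL
theorem GEL_v : V3.GEL_stmt := V3.GEL
theorem GEP_v : V3S.GEP_stmt := V3S.GEP MPS.NR_ok PPS.LV_p
theorem GLA_v : V3.GLA_stmt := V3.GLA
theorem GLB_v : V3S.GLB_stmt := V3S.GLB
theorem GPD_v : V3S.GPD_stmt := V3S.GPD
theorem GSF_v : V3.GSF_stmt := V3.GSF
theorem GTH_v : V3S.GTH_stmt := V3S.GTH
theorem GZC_v : V3S.GZC_stmt := V3S.GZC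
theorem GZX_v : V3S.GZX_stmt := V3S.GZX
theorem KO0_v : V3.KO0_stmt := V3.KO0
theorem KO1_v : V3.KO1_stmt := V3.KO1
theorem LGN_v : V3W.LGN_stmt := V3W.LGN
theorem NCH_v : V3S.NCH_stmt := V3S.NCH
theorem NIX_v : V3S.NIX_stmt := V3S.NIX PPS.LEA_p PPS.LV_p
theorem NLP_v : V3.NLP_stmt := V3.NLP
theorem NPK_v : V3.NPK_stmt := V3.NPK
theorem PCN_v : V3.PCN_stmt := V3.PCN
theorem PDE_v : V3.PDE_stmt := V3.PDE
theorem PFO_v : V3.PFO_stmt := V3.PFO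
theorem PIN_v : V3.PIN_stmt := V3.PIN
theorem PPH_v : V3.PPH_stmt := V3.PPH
theorem PR0_v : V3.PR0_stmt := V3.PR0
theorem PSL_v : V3.PSL_stmt := V3.PSL
theorem REB_v : V3W.REB_stmt := V3W.REB MPS.NM_ok
theorem REMO_v : V3.REMO_stmt := V3.REMO
theorem S3G_v : PPS.S3G_stmt := PPS.S3G
theorem SGN_v : V3S.SGN_stmt := V3S.SGN MPS.NU_ok
theorem SQC_v : V3.SQC_stmt := V3.SQC
theorem ST2_v : V3S.ST2_stmt := V3S.ST2 PPS.DG_p PPS.COC_p PPS.PHI_p PPS.PNX_p PPS.PT1_p MPS.NH_ok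
theorem SUD_v : V3S.SUD_stmt := V3S.SUD
theorem TBX_v : V3.TBX_stmt := V3.TBX
theorem TDE_v : V3.TDE_stmt := V3.TDE
theorem THU_v : V3.THU_stmt := V3.THU
theorem TMO_v : V3.TMO_stmt := V3.TMO
theorem TMX_v : V3.TMX_stmt := V3.TMX
theorem TUL_v : V3.TUL_stmt := V3.TUL
theorem UER_v : V3W.UER_stmt := V3W.UER PPS.PRB_p PPS.TB_p
theorem BA2_v : V3S.BA2_stmt := V3S.BA2 BA1_v
theorem BA3_v : V3S.BA3_stmt := V3S.BA3 BA1_v
theorem CHF_v : V3.CHF_stmt := V3.CHF CHP_v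
theorem FSUM_v : V3.FSUM_stmt := V3.FSUM REMO_v AFF2_v
theorem GEX_v : V3S.GEX_stmt := V3S.GEX BA1_v
theorem GRO_v : V3.GRO_stmt := V3.GRO GSF_v
theorem KO2_v : V3.KO2_stmt := V3.KO2 KO0_v
theorem KRD_v : V3S.KRD_stmt := V3S.KRD SUD_v PPS.KRE_p
theorem NSU_v : V3.NSU_stmt := V3.NSU NPK_v
theorem PCO_v : V3.PCO_stmt := V3.PCO GSF_v
theorem S3A_v : PPS.S3A_stmt := PPS.S3A PPS.LUN_p S3G_v
theorem SEP_v : V3S.SEP_stmt := V3S.SEP KO1_v MPS.NI_ok MPS.ND_ok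
theorem THM_v : V3.THM_stmt := V3.THM THU_v TMX_v
theorem CHI_v : V3.CHI_stmt := V3.CHI CHP_v CHF_v
theorem ENB_v : V3.ENB_stmt := V3.ENB PCO_v
theorem EXB_v : V3S.EXB_stmt := V3S.EXB CAF_v SEP_v NPK_v BA1_v PPS.LV_p
theorem FRAT_v : V3.FRAT_stmt := V3.FRAT FSUM_v FPOL_v
theorem GBA_v : V3S.GBA_stmt := V3S.GBA BA1_v BA2_v BA3_v
theorem GFM_v : V3S.GFM_stmt := V3S.GFM BA1_v BA2_v GLB_v
theorem GTR_v : V3.GTR_stmt := V3.GTR GRO_v GLA_v GEL_v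
theorem GZP_v : V3S.GZP_stmt := V3S.GZP BA1_v BA3_v
theorem KO3_v : V3.KO3_stmt := V3.KO3 KO0_v KO2_v
theorem LPI_v : V3S.LPI_stmt := V3S.LPI SEP_v BA1_v NLP_v PCO_v
theorem MNI_v : V3S.MNI_stmt := V3S.MNI KRD_v SEP_v BA1_v
theorem NFA_v : V3.NFA_stmt := V3.NFA NSU_v
theorem PPE_v : V3.PPE_stmt := V3.PPE PCO_v
theorem S3L_v : PPS.S3L_stmt := PPS.S3L PPS.LEA_p PPS.LV_p PPS.MI_p PPS.MA_p MPS.HAR_ok S3A_v
theorem STEP3_v : PPS.STEP3_stmt := PPS.STEP3 PPS.LUN_p S3G_v S3A_v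
theorem VB1_v : V3.VB1_stmt := V3.VB1 PCO_v
theorem FQ0_v : V3.FQ0_stmt := V3.FQ0 FRAT_v FPH_v FCI_v FPL_v ENB_v
theorem GBD_v : V3S.GBD_stmt := V3S.GBD KO3_v MPS.NI_ok
theorem GFK_v : V3S.GFK_stmt := V3S.GFK GBA_v
theorem GGL_v : V3S.GGL_stmt := V3S.GGL GBA_v GLB_v
theorem GPO_v : V3S.GPO_stmt := V3S.GPO GBA_v
theorem GQE_v : V3S.GQE_stmt := V3S.GQE GBA_v GLB_v GEX_v REMO_v PCO_v
theorem MU3_v : PPS.MU3_stmt := PPS.MU3 S3A_v S3L_v PPS.LEA_p MPS.HSM_ok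
theorem NBD_v : V3.NBD_stmt := V3.NBD NPK_v NFA_v
theorem PQ0_v : V3.PQ0_stmt := V3.PQ0 PPE_v PFO_v PPH_v PSL_v PIN_v
theorem PRAT_v : V3.PRAT_stmt := V3.PRAT PPE_v REMO_v PDE_v PR0_v AFF2_v PCO_v
theorem PT3_v : PPS.PT3_stmt := PPS.PT3 S3L_v MPS.HSM_ok S3A_v PPS.LEA_p PPS.LV_p
theorem PTS_v : V3S.PTS_stmt := V3S.PTS KO1_v KO3_v MPS.NI_ok MPS.ND_ok BA1_v
theorem REC_v : V3S.REC_stmt := V3S.REC CAF_v KO3_v NIX_v
theorem SEQ3_v : PPS.SEQ3_stmt := PPS.SEQ3 STEP3_v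
theorem ST1_v : V3S.ST1_stmt := V3S.ST1 SUD_v ST2_v PPS.P1W_p PPS.P1A_p PPS.PT1_p MPS.NI_ok KO3_v
theorem CNF_v : V3S.CNF_stmt := V3S.CNF SEP_v GBD_v PTS_v BA2_v
theorem EV3_v : PPS.EV3_stmt := PPS.EV3 PPS.BDY_p PPS.EVT_p PPS.LEI_p PPS.LEA_p PPS.LV_p PPS.MA_p PPS.MI_p S3G_v S3A_v PT3_v
theorem FEND_v : V3.FEND_stmt := V3.FEND FQ0_v VB1_v FRAT_v SQC_v FLAG_v PCO_v
theorem GAL_v : V3S.GAL_stmt := V3S.GAL GBA_v GLB_v GFK_v TUL_v
theorem GHP_v : V3S.GHP_stmt := V3S.GHP GBA_v GLB_v GFK_v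
theorem GSE_v : V3S.GSE_stmt := V3S.GSE GBA_v GLB_v GFK_v
theorem GZF_v : V3S.GZF_stmt := V3S.GZF GLB_v GZC_v GZP_v GZX_v GPO_v CHI_v GBA_v GFK_v
theorem NBP_v : V3.NBP_stmt := V3.NBP NLP_v PCO_v NPK_v NBD_v TMO_v TUL_v
theorem NMO_v : V3.NMO_stmt := V3.NMO NLP_v PCO_v NPK_v NBD_v TMO_v
theorem PSG_v : V3.PSG_stmt := V3.PSG PRAT_v PCN_v
theorem REACH3_v : PPS.REACH3_stmt := PPS.REACH3 MPS.NPL_ok PPS.LEA_p S3G_v S3A_v PT3_v
theorem START_v : V3S.START_stmt := V3S.START ST1_v KO1_v KO3_v TUL_v MPS.NI_ok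
theorem GM1_v : V3S.GM1_stmt := V3S.GM1 GSE_v TUL_v
theorem GMF_v : V3S.GMF_stmt := V3S.GMF GSE_v GLB_v TUL_v
theorem NB2_v : V3.NB2_stmt := V3.NB2 NLP_v GSF_v PCO_v NSU_v TDE_v NMO_v
theorem PEN_v : V3.PEN_stmt := V3.PEN PSG_v PQ0_v VB1_v SQC_v PCO_v
theorem PH3_v : PPS.PH3_stmt := PPS.PH3 S3G_v SEQ3_v MU3_v REACH3_v EV3_v MPS.CHEB_ok PPS.LIFT_p PPS.PRB_p
theorem CS_v : PPS.CS_stmt := PPS.CS PH3_v S3G_v S3A_v PT3_v
theorem ENDG_v : V3.ENDG_stmt := V3.ENDG GTR_v FEND_v PEN_v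
theorem NORM_v : V3.NORM_stmt := V3.NORM NLP_v NMO_v NBP_v NB2_v
theorem CSH_v : V3S.CSH_stmt := V3S.CSH CS_v PPS.LEA_p
theorem LMB_v : V3S.LMB_stmt := V3S.LMB CNF_v LPI_v BA2_v NORM_v TDE_v
theorem CHT_v : V3S.CHT_stmt := V3S.CHT NCH_v LMB_v LPI_v BA1_v
theorem CSZ_v : V3S.CSZ_stmt := V3S.CSZ LMB_v
theorem REG_v : V3S.REG_stmt := V3S.REG LMB_v LPI_v
theorem STA_v : V3S.STA_stmt := V3S.STA START_v CNF_v LPI_v LMB_v BA1_v
theorem GGR_v : V3S.GGR_stmt := V3S.GGR GBA_v GLB_v LPI_v REG_v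
theorem GTC_v : V3S.GTC_stmt := V3S.GTC REG_v BA1_v BA2_v PCO_v GLB_v GHP_v
theorem PHS_v : V3S.PHS_stmt := V3S.PHS CSZ_v CAF_v BA1_v
theorem STP_v : V3S.STP_stmt := V3S.STP CHT_v SGN_v EXB_v CSH_v REC_v BA4_v CAF_v
theorem ALC_v : V3S.ALC_stmt := V3S.ALC STA_v STP_v REG_v
theorem GEI_v : V3S.GEI_stmt := V3S.GEI GEP_v GFK_v GHP_v GTC_v PPS.MA_p PPS.MI_p BA1_v BA2_v BA4_v
theorem GZE_v : V3S.GZE_stmt := V3S.GZE GHP_v GTC_v THM_v REG_v BA1_v BA2_v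
theorem ISL_v : V3S.ISL_stmt := V3S.ISL PHS_v BA1_v PPS.LV_p PPS.LEA_p
theorem VLO_v : V3S.VLO_stmt := V3S.VLO PHS_v CAF_v BA1_v
theorem GCN_v : V3S.GCN_stmt := V3S.GCN GBA_v GZE_v GHP_v GPD_v KO0_v
theorem ISO_v : V3S.ISO_stmt := V3S.ISO ISL_v ALC_v LMB_v
theorem VBD_v : V3S.VBD_stmt := V3S.VBD ALC_v VLO_v REG_v BA3_v TBX_v
theorem INJ_v : V3S.INJ_stmt := V3S.INJ VBD_v BA1_v BA3_v KO0_v
theorem VLM_v : V3S.VLM_stmt := V3S.VLM VBD_v TMO_v TDE_v BA3_v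
theorem AFF_v : V3S.AFF_stmt := V3S.AFF INJ_v BA1_v KO0_v KO3_v
theorem GQL_v : V3S.GQL_stmt := V3S.GQL BA1_v BA2_v LPI_v LMB_v VLM_v GLB_v
theorem CMM_v : V3S.CMM_stmt := V3S.CMM VBD_v AFF_v BA1_v
theorem GEN_v : V3S.GEN_stmt := V3S.GEN GEI_v GQL_v GTC_v REG_v
theorem GML_v : V3S.GML_stmt := V3S.GML GAL_v GQE_v GTH_v GLB_v GGR_v GMF_v GM1_v GCN_v GEN_v
theorem LOKA_v : V3S.LOKA_stmt := V3S.LOKA LPI_v SEP_v LMB_v VLM_v INJ_v AFF_v MNI_v CMM_v ISO_v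
theorem GEND_v : V3S.GEND_stmt := V3S.GEND GGL_v GML_v ENDG_v GFM_v GZF_v
theorem V3P_v : V3S.V3P_stmt := V3S.V3P LOKA_v GEND_v
theorem VPD_v : V3W.VPD_stmt := V3W.VPD V3P_v CRB_v REB_v PPS.RAD_p
theorem FLQ_v : V3W.FLQ_stmt := V3W.FLQ FLE_v VPD_v LGN_v PPS.THB0_p PPS.ZCY_p PPS.TG_p
theorem THN_v : V3W.THN_stmt := V3W.THN VPD_v LGN_v PPS.K1_p PPS.QB_p PPS.ERQ_p PPS.RAD_p
theorem THV_v : V3W.THV_stmt := V3W.THV UER_v VPD_v LGN_v MPS.MI_ok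
theorem FV_v : V3W.FV_stmt := V3W.FV MPS.ZBIG_ok MPS.ZK1_ok MPS.ZCYC_ok MPS.TG_ok MPS.ZL_ok LGN_v THV_v
theorem THQ_v : V3W.THQ_stmt := V3W.THQ THN_v LGN_v PPS.THC_p
theorem FAQ_v : V3W.FAQ_stmt := V3W.FAQ THQ_v PPS.ZCY_p PPS.TG_p PPS.ZLP_p
theorem FW_v : V3W.FW_stmt := V3W.FW FV_v LGN_v MQ.FB1_t MPS.ZN_ok MPS.ZC_ok MPS.ZBC_ok
theorem FDQ_v : V3W.FDQ_stmt := V3W.FDQ FAQ_v PPS.CON_p MPS.ZBC_ok
theorem FX_v : V3W.FX_stmt := V3W.FX FW_v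

end V3A
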